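import Pool.Agent.Run7.h31.Brown.Perm

set_option autoImplicit false
set_option linter.unusedSectionVars false

open scoped Matrix Pointwise

/-! Complexes of permutation modules with heights. -/

namespace Run7.h31.Brown

open Run7.h31.Raise Pool.Agent.N309.LO
open Pool.Agent.Results.MP_984acc_gt.OrderRaising

universe u v w

/-- A complex of permutation modules of `G` with the boundary operators `d b`, for instance the chain
complex of a cell complex on which `G` acts by cellular maps such that the stabilizers of the cells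
preserve the orientations. The set `Y b` is the set of the cells of dimension `b`, the cell `σ` has the
height `h b σ` in the ordered `G`-set `X`, and the cells in the boundary of a cell are at least as high
as the cell. The augmentation maps the vertex `σ` to `α σ` (to `1` in the geometric situation). In the
dimensions less than `m` the subcomplex of the cells of height at least `x` has the homology of a
point, for every `x`. -/
structure IsHeightComplex {G : Type u} [Group G] {X : Type v} [LinearOrder X] [MulAction G X]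
    (m : ℕ) {Y : ℕ → Type u} [∀ b, MulAction G (Y b)]
    (d : ∀ b, (Y (b + 1) →₀ ℂ) →ₗ[ℂ] (Y b →₀ ℂ)) (α : Y 0 → ℂ) (h : ∀ b, Y b → X) : Prop where
  invariant : ∀ (g : G) (σ : Y 0), α (g • σ) = α σ
  equivariant : ∀ b, b + 1 ≤ m → ∀ (g : G) (σ : Y (b + 1)), d b (Finsupp.single (g • σ) 1)
    = (d b (Finsupp.single σ 1)).mapDomain (fun τ => g • τ)
  height : ∀ b (g : G) (σ : Y b), h b (g • σ) = g • h b σ
  rising : ∀ b, b + 1 ≤ m → ∀ (σ : Y (b + 1)) (τ : Y b), d b (Finsupp.single σ 1) τ ≠ 0 →
    h (b + 1) σ ≤ h b τ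
  comp_zero : 1 ≤ m → ∀ v, (d 0 v).sum (fun σ c => c * α σ) = 0
  comp : ∀ b, b + 2 ≤ m → ∀ v, d b (d (b + 1) v) = 0
  nonempty : ∀ x : X, ∃ σ : Y 0, x ≤ h 0 σ ∧ α σ ≠ 0
  exact_zero : 1 ≤ m → ∀ (x : X) (v : Y 0 →₀ ℂ), (∀ σ, v σ ≠ 0 → x ≤ h 0 σ) →
    v.sum (fun σ c => c * α σ) = 0 → ∃ u : Y 1 →₀ ℂ, (∀ σ, u σ ≠ 0 → x ≤ h 1 σ) ∧ d 0 u = v
  exact : ∀ b, b + 2 ≤ m → ∀ (x : X) (v : Y (b + 1) →₀ ℂ), (∀ σ, v σ ≠ 0 → x ≤ h (b + 1) σ) →
    d b v = 0 → ∃ u : Y (b + 2) →₀ ℂ, (∀ σ, u σ ≠ 0 → x ≤ h (b + 2) σ) ∧ d (b + 1) u = v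

section
variable {G : Type u} [Group G] {X : Type v} [LinearOrder X] [MulAction G X]

/-- the trivial module with the trivial filtration -/
noncomputable def triv (G : Type u) [Group G] (X : Type v) [LinearOrder X] [MulAction G X] :
    FMod.{u, v, u} G X :=
  permF PUnit.{u + 1} (fun _ => Set.univ) (fun _ _ _ _ _ _ => trivial)

/-- the cells filtered by the heights -/
noncomputable def cellF (hX : OrdInv G X) {Y : Type u} [MulAction G Y] (h : Y → X)
    (hh : ∀ (g : G) (σ : Y), h (g • σ) = g • h σ) : FMod.{u, v, u} G X :=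
  permF Y (fun x => {σ | x ≤ h σ}) (fun g x y hxy z hz => by
    change y ≤ h (g • z)
    rw [hh]
    exact hxy.trans (hX g _ _ hz))

/-- the augmentation -/
noncomputable def eps {Y : Type u} (α : Y → ℂ) : (Y →₀ ℂ) →ₗ[ℂ] (PUnit.{u + 1} →₀ ℂ) :=
  (Finsupp.lsingle PUnit.unit) ∘ₗ (Finsupp.linearCombination ℂ α)

theorem eps_eq {Y : Type u} (α : Y → ℂ) (f : Y →₀ ℂ) :
    eps α f = Finsupp.single PUnit.unit (f.sum (fun σ c => c * α σ)) := rfl

theorem eps_apply {Y : Type u} (α : Y → ℂ) (f : Y →₀ ℂ) :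
    eps α f PUnit.unit = f.sum (fun σ c => c * α σ) := by
  rw [eps_eq, Finsupp.single_eq_same]

theorem eps_single {Y : Type u} (α : Y → ℂ) (σ : Y) (c : ℂ) :
    eps α (Finsupp.single σ c) = Finsupp.single PUnit.unit (c * α σ) := by
  rw [eps_eq, Finsupp.sum_single_index (zero_mul _)]

theorem eps_equivariant {Y : Type u} [MulAction G Y] (α : Y → ℂ)
    (hα : ∀ (g : G) (σ : Y), α (g • σ) = α σ) (g : G) (σ : Y) :
    eps α (Finsupp.single (g • σ) 1)
      = (eps α (Finsupp.single σ 1)).mapDomain (fun z => g • z) := by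
  rw [eps_single, eps_single, Finsupp.mapDomain_single, hα]

theorem lin_sum {Y Z : Type*} (f : (Y →₀ ℂ) →ₗ[ℂ] (Z →₀ ℂ)) (v : Y →₀ ℂ) :
    f v = ∑ σ ∈ v.support, v σ • f (Finsupp.single σ 1) := by
  conv_lhs => rw [← Finsupp.sum_single v]
  rw [Finsupp.sum, map_sum]
  refine Finset.sum_congr rfl fun σ _ => ?_
  rw [← map_smul, Finsupp.smul_single, smul_eq_mul, mul_one]

theorem rising_of {Y Z : Type u} {h : Y → X} {h' : Z → X} (f : (Y →₀ ℂ) →ₗ[ℂ] (Z →₀ ℂ))
    (hf : ∀ σ τ, f (Finsupp.single σ 1) τ ≠ 0 → h σ ≤ h' τ) {x : X} {v : Y →₀ ℂ}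
    (hv : ∀ σ, v σ ≠ 0 → x ≤ h σ) (τ : Z) (hτ : f v τ ≠ 0) : x ≤ h' τ := by
  rw [lin_sum f v, Finsupp.finsetSum_apply] at hτ
  obtain ⟨σ, _, h1⟩ := Finset.exists_ne_zero_of_sum_ne_zero hτ
  rw [Finsupp.smul_apply, smul_eq_mul] at h1
  exact (hv σ (left_ne_zero_of_mul h1)).trans (hf σ τ (right_ne_zero_of_mul h1))

/-- the kernel of a map between filtered modules -/
theorem cells_ff (hX : OrdInv G X) (m : ℕ) {Y : ℕ → Type u} [∀ b, MulAction G (Y b)]
    (d : ∀ b, (Y (b + 1) →₀ ℂ) →ₗ[ℂ] (Y b →₀ ℂ)) (α : Y 0 → ℂ) (h : ∀ b, Y b → X)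
    (H : IsHeightComplex (G := G) m d α h)
    (hFF : ∀ b, b ≤ m → FF (m - b) (cellF hX (h b) (H.height b))) : FF m (triv G X) := by
  -- the augmentation
  set p0 : PM G (Y 0) →ₗ[MonoidAlgebra ℂ G] PM G PUnit.{u + 1} := toA (eps α)
      (eps_equivariant α H.invariant)
    with hp0
  have hl0 : LevSurj (B := cellF hX (h 0) (H.height 0)) (C := triv G X) p0 := by
    refine ⟨fun x b _ z _ => trivial, ?_⟩
    intro x (c : PM G PUnit.{u + 1}) _
    obtain ⟨σ, hσ, hσ0⟩ := H.nonempty x
    refine ⟨(ofF (Finsupp.single σ (toF c PUnit.unit * (α σ)⁻¹)) : PM G (Y 0)), ?_, ?_⟩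
    · intro z hz
      rw [toF_ofF] at hz
      by_cases hzσ : z = σ
      · subst hzσ
        exact hσ
      · rw [Finsupp.single_eq_of_ne hzσ] at hz
        exact absurd rfl hz
    · apply toF_inj
      change eps α (Finsupp.single σ (toF c PUnit.unit * (α σ)⁻¹)) = toF c
      rw [eps_single, mul_assoc, inv_mul_cancel₀ hσ0, mul_one]
      ext
      rw [Finsupp.single_eq_same]
  -- the kernels
  have key : ∀ j b, b + 1 + j = m → ∀ S : Submodule (MonoidAlgebra ℂ G) (PM G (Y b)),
      (∀ x, ∀ v : PM G (Y b), v ∈ S → (∀ σ, toF v σ ≠ 0 → x ≤ h b σ) →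
        ∃ u : Y (b + 1) →₀ ℂ, (∀ σ, u σ ≠ 0 → x ≤ h (b + 1) σ) ∧ d b u = toF v) →
      (∀ u, ofF (d b u) ∈ S) → FF j (subF (cellF hX (h b) (H.height b)) S) := by
    intro j
    induction j with
    | zero =>
      intro b hb S hS hS'
      have hp : LevSurj (B := cellF hX (h (b + 1)) (H.height (b + 1)))
          (C := subF (cellF hX (h b) (H.height b)) S)
          (LinearMap.codRestrict S (toA (d b) (H.equivariant b (by omega)))
            (fun u => hS' (toF u))) := by
        constructor
        · intro x u hu τ hτ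
          exact rising_of (d b) (H.rising b (by omega)) hu τ hτ
        · intro x v hv
          obtain ⟨u, hu, hu'⟩ := hS x v.1 v.2 hv
          exact ⟨(ofF u : PM G (Y (b + 1))), hu, Subtype.ext (toF_inj (G := G) hu')⟩
      apply cone_zero hp
      have h1 := hFF (b + 1) (by omega)
      have e : m - (b + 1) = 0 := by omega
      rwa [e] at h1
    | succ j ih =>
      intro b hb S hS hS'
      have hp : LevSurj (B := cellF hX (h (b + 1)) (H.height (b + 1)))
          (C := subF (cellF hX (h b) (H.height b)) S)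
          (LinearMap.codRestrict S (toA (d b) (H.equivariant b (by omega)))
            (fun u => hS' (toF u))) := by
        constructor
        · intro x u hu τ hτ
          exact rising_of (d b) (H.rising b (by omega)) hu τ hτ
        · intro x v hv
          obtain ⟨u, hu, hu'⟩ := hS x v.1 v.2 hv
          exact ⟨(ofF u : PM G (Y (b + 1))), hu, Subtype.ext (toF_inj (G := G) hu')⟩
      refine cone_succ hX hp ?_ ?_
      · have h1 := hFF (b + 1) (by omega)
        have e : m - (b + 1) = j + 1 := by omega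
        rwa [e] at h1
      · apply ih (b + 1) (by omega)
        · intro x v hv hvx
          have hv' : (LinearMap.codRestrict S (toA (d b) (H.equivariant b (by omega)))
            (fun u => hS' (toF u))) v = 0 := hv
          have hv0 : d b (toF v) = 0 := by
            have h2 := congrArg (fun z : S => toF z.1) hv'
            exact h2
          exact H.exact b (by omega) x (toF v) hvx hv0
        · intro u
          change (LinearMap.codRestrict S (toA (d b) (H.equivariant b (by omega)))
            (fun u => hS' (toF u))) (ofF (d (b + 1) u)) = 0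
          apply Subtype.ext
          apply toF_inj
          exact H.comp b (by omega) u
  rcases m with _ | m
  · exact cone_zero hl0 (hFF 0 le_rfl)
  · refine cone_succ hX hl0 (hFF 0 (by omega)) ?_
    apply key m 0 (by omega)
    · intro x v hv hvx
      have hv' : p0 v = 0 := hv
      have hv0 : (toF v).sum (fun σ c => c * α σ) = 0 := by
        rw [← eps_apply]
        have h2 := congrArg (fun z : PM G PUnit.{u + 1} => toF z PUnit.unit) hv'
        exact h2
      exact H.exact_zero (by omega) x (toF v) hvx hv0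
    · intro u
      change p0 (ofF (d 0 u)) = 0
      apply toF_inj
      rw [hp0, toF_toA, toF_ofF, eps_eq, H.comp_zero (by omega), Finsupp.single_zero]
      rfl

theorem toF_smul_triv (α : MonoidAlgebra ℂ G) (f : PM G PUnit.{u + 1}) :
    toF (α • f) PUnit.unit = aug α * toF f PUnit.unit := by
  induction α using MonoidAlgebra.induction_linear with
  | zero =>
    rw [zero_smul, map_zero toF]
    unfold aug
    rw [MonoidAlgebra.coeff_zero, Finsupp.sum_zero_index, zero_mul]
    rfl
  | add a b ha hb =>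
    rw [add_smul, map_add toF, Finsupp.add_apply, ha, hb, ← add_mul]
    congr 1
    unfold aug
    rw [MonoidAlgebra.coeff_add]
    exact (Finsupp.sum_add_index' (fun _ => rfl) (fun _ _ _ => rfl)).symm
  | single g c =>
    rw [toF_single_apply]
    unfold aug
    rw [MonoidAlgebra.coeff_single, Finsupp.sum_single_index rfl]

theorem upper_of_ff {m : ℕ} (h : FF m (triv G X)) :
    ∃ (q : ℕ → ℕ) (E : Matrices G q) (a : Fin (q 0) → ℂ) (w : ∀ i, Fin (q i) → X),
      IsUpperExact m E a w := by
  obtain ⟨q, E, w, (b : Fin (q 0) → PM G PUnit.{u + 1}), h⟩ := h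
  have key : ∀ v : Fin (q 0) → MonoidAlgebra ℂ G,
      toF (lc (M := PM G PUnit.{u + 1}) b v) PUnit.unit
        = ∑ i, aug (v i) * toF (b i) PUnit.unit := by
    intro v
    rw [lc_apply, map_sum toF, Finsupp.finsetSum_apply]
    exact Finset.sum_congr rfl fun i _ => toF_smul_triv _ _
  have hzero : ∀ v : Fin (q 0) → MonoidAlgebra ℂ G,
      ∑ i, aug (v i) * toF (b i) PUnit.unit = 0 → lc (M := PM G PUnit.{u + 1}) b v = 0 := by
    intro v hv
    apply toF_inj
    ext
    rw [key, hv]
    rfl
  refine ⟨q, E, fun i => toF (b i) PUnit.unit, w, ?_⟩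
  constructor
  · exact h.hts
  · intro hm y
    rw [← key]
    have h1 : lc (M := PM G PUnit.{u + 1}) b (y ᵥ* E 0) = 0 := by
      have e1 : lc (M := PM G PUnit.{u + 1}) b (y ᵥ* E 0)
          = ∑ j, y j • lc (M := PM G PUnit.{u + 1}) b (E 0 j) := by
        rw [← lc_rows]
        exact lc_map (lc (M := PM G PUnit.{u + 1}) b) (fun j => E 0 j) y
      rw [e1]
      apply Finset.sum_eq_zero
      intro j _
      have h2 : lc (M := PM G PUnit.{u + 1}) b (E 0 j) = 0 := h.comp0 hm j
      rw [h2, smul_zero]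
    rw [h1]
    rfl
  · exact h.comp
  · intro x
    obtain ⟨v, hv, hv1⟩ := h.cov.surj x
      (ofF (Finsupp.single PUnit.unit 1) : PM G PUnit.{u + 1}) (fun _ _ => trivial)
    refine ⟨v, hv, ?_⟩
    rw [← key]
    have h1 : lc (M := PM G PUnit.{u + 1}) b v = ofF (Finsupp.single PUnit.unit 1) := hv1
    rw [h1, toF_ofF, Finsupp.single_eq_same]
    exact one_ne_zero
  · intro hm x v hv hv0
    exact h.ex0 hm x v hv (hzero v hv0)
  · exact h.ex

end

end Run7.h31.Brown
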