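import Pool.Agent.Run7.h31.Brown.Orbits

set_option autoImplicit false
set_option linter.unusedSectionVars false

open scoped Matrix Pointwise

/-! Extensions of groups. -/

namespace Run7.h31.Brown

open Run7.h31.Raise Pool.Agent.N309.LO
open Pool.Agent.Results.MP_984acc_gt.OrderRaising

universe u v w

/-- the cells of the complex of the quotient group -/
structure Cel {G : Type u} [Group G] (N : Subgroup G) (k : ℕ) : Type u where
  idx : Fin k
  pt : G ⧸ N

section
variable {G : Type u} [Group G] (N : Subgroup G) [N.Normal]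

instance (k : ℕ) : MulAction G (Cel N k) where
  smul g z := ⟨z.1, (g : G ⧸ N) * z.2⟩
  one_smul := by
    rintro ⟨j, x⟩
    change Cel.mk j (((1 : G) : G ⧸ N) * x) = Cel.mk j x
    rw [QuotientGroup.mk_one, one_mul]
  mul_smul := by
    rintro g g' ⟨j, x⟩
    change Cel.mk j (((g * g' : G) : G ⧸ N) * x) = Cel.mk j ((g : G ⧸ N) * ((g' : G ⧸ N) * x))
    rw [QuotientGroup.mk_mul, mul_assoc]

theorem cel_smul {k : ℕ} (g : G) (j : Fin k) (x : G ⧸ N) :
    g • (Cel.mk j x) = (Cel.mk j ((g : G ⧸ N) * x)) := rfl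

/-- the vector of a function -/
noncomputable def toV {k : ℕ} (f : Cel N k →₀ ℂ) : Fin k → MonoidAlgebra ℂ (G ⧸ N) := fun j =>
  MonoidAlgebra.ofCoeff (Finsupp.comapDomain (fun x : G ⧸ N => (Cel.mk j x)) f
    (fun _ _ _ _ h => (congrArg Cel.pt h)))

theorem toV_coeff {k : ℕ} (f : Cel N k →₀ ℂ) (j : Fin k) (x : G ⧸ N) :
    (toV N f j).coeff x = f (Cel.mk j x) := rfl

/-- the function of a vector -/
noncomputable def ofV {k : ℕ} (v : Fin k → MonoidAlgebra ℂ (G ⧸ N)) : Cel N k →₀ ℂ :=
  Finsupp.ofSupportFinite (fun z => (v z.1).coeff z.2) (by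
    classical
    apply Set.Finite.subset (Finset.finite_toSet (Finset.univ.biUnion (fun j : Fin k =>
      (v j).coeff.support.image (fun x : G ⧸ N => (Cel.mk j x)))))
    intro z hz
    rw [Finset.mem_coe, Finset.mem_biUnion]
    exact ⟨z.1, Finset.mem_univ _, Finset.mem_image.2 ⟨z.2, Finsupp.mem_support_iff.2 hz, rfl⟩⟩)

theorem ofV_apply {k : ℕ} (v : Fin k → MonoidAlgebra ℂ (G ⧸ N)) (j : Fin k) (x : G ⧸ N) :
    ofV N v (Cel.mk j x) = (v j).coeff x := rfl

theorem ofV_toV {k : ℕ} (f : Cel N k →₀ ℂ) : ofV N (toV N f) = f := by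
  ext ⟨j, x⟩
  rfl

theorem vec_ext {k : ℕ} {v v' : Fin k → MonoidAlgebra ℂ (G ⧸ N)}
    (h : ∀ j x, (v j).coeff x = (v' j).coeff x) : v = v' := by
  funext j
  apply MonoidAlgebra.coeff_injective
  ext x
  exact h j x

theorem toV_ofV {k : ℕ} (v : Fin k → MonoidAlgebra ℂ (G ⧸ N)) : toV N (ofV N v) = v := by
  apply vec_ext
  intro j x
  rfl

theorem toV_add {k : ℕ} (f f' : Cel N k →₀ ℂ) : toV N (f + f') = toV N f + toV N f' := by
  apply vec_ext
  intro j x
  rw [toV_coeff, Finsupp.add_apply, Pi.add_apply, MonoidAlgebra.coeff_add, Finsupp.add_apply,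
    toV_coeff, toV_coeff]

theorem toV_smul {k : ℕ} (c : ℂ) (f : Cel N k →₀ ℂ) : toV N (c • f) = c • toV N f := by
  apply vec_ext
  intro j x
  rw [toV_coeff, Finsupp.smul_apply, Pi.smul_apply, MonoidAlgebra.coeff_smul_apply, toV_coeff]

theorem ofV_add {k : ℕ} (v v' : Fin k → MonoidAlgebra ℂ (G ⧸ N)) :
    ofV N (v + v') = ofV N v + ofV N v' := by
  ext ⟨j, x⟩
  rw [Finsupp.add_apply, ofV_apply, ofV_apply, ofV_apply, Pi.add_apply, MonoidAlgebra.coeff_add,
    Finsupp.add_apply]

theorem ofV_smul {k : ℕ} (c : ℂ) (v : Fin k → MonoidAlgebra ℂ (G ⧸ N)) :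
    ofV N (c • v) = c • ofV N v := by
  ext ⟨j, x⟩
  rw [Finsupp.smul_apply, ofV_apply, ofV_apply, Pi.smul_apply, MonoidAlgebra.coeff_smul_apply]

theorem toV_single {k : ℕ} (j : Fin k) (x : G ⧸ N) (c : ℂ) :
    toV N (Finsupp.single (Cel.mk j x) c) = Pi.single j (MonoidAlgebra.single x c) := by
  classical
  apply vec_ext
  intro i y
  rw [toV_coeff]
  by_cases hi : i = j
  · subst hi
    rw [Pi.single_eq_same, MonoidAlgebra.coeff_single, Finsupp.single_apply, Finsupp.single_apply]
    apply if_congr _ rfl rfl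
    constructor
    · intro h
      exact (congrArg Cel.pt h)
    · intro h
      rw [h]
  · rw [Pi.single_eq_of_ne hi, Finsupp.single_eq_of_ne]
    · rfl
    · intro h
      exact hi (congrArg Cel.idx h)

/-- the boundary operator -/
noncomputable def dV {k l : ℕ} (M : Matrix (Fin l) (Fin k) (MonoidAlgebra ℂ (G ⧸ N))) :
    (Cel N l →₀ ℂ) →ₗ[ℂ] (Cel N k →₀ ℂ) where
  toFun f := ofV N (toV N f ᵥ* M)
  map_add' := by
    intro f f'
    rw [toV_add, Matrix.add_vecMul, ofV_add]
  map_smul' := by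
    intro c f
    rw [toV_smul, RingHom.id_apply, ← ofV_smul]
    congr 1
    funext j
    change ∑ i, (c • toV N f i) * M i j = c • ∑ i, toV N f i * M i j
    rw [Finset.smul_sum]
    exact Finset.sum_congr rfl fun i _ => smul_mul_assoc _ _ _

theorem dV_apply {k l : ℕ} (M : Matrix (Fin l) (Fin k) (MonoidAlgebra ℂ (G ⧸ N)))
    (f : Cel N l →₀ ℂ) : dV N M f = ofV N (toV N f ᵥ* M) := rfl

theorem dV_single {k l : ℕ} (M : Matrix (Fin l) (Fin k) (MonoidAlgebra ℂ (G ⧸ N)))
    (i : Fin l) (y : G ⧸ N) (j : Fin k) (x : G ⧸ N) :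
    dV N M (Finsupp.single (Cel.mk i y) 1) (Cel.mk j x) = (M i j).coeff (y⁻¹ * x) := by
  classical
  rw [dV_apply, ofV_apply, toV_single]
  have e : ((Pi.single i (MonoidAlgebra.single y 1) : Fin l → MonoidAlgebra ℂ (G ⧸ N)) ᵥ* M) j
      = MonoidAlgebra.single y 1 * M i j := by
    change ∑ s, (Pi.single i (MonoidAlgebra.single y 1) : Fin l → MonoidAlgebra ℂ (G ⧸ N)) s * M s j
      = _
    rw [Finset.sum_eq_single i]
    · rw [Pi.single_eq_same]
    · intro s _ hs
      rw [Pi.single_eq_of_ne hs, zero_mul]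
    · intro h
      exact absurd (Finset.mem_univ _) h
  rw [e, MonoidAlgebra.coeff_single_mul_apply, one_mul]

theorem aug_cel {k : ℕ} (a : Fin k → ℂ) (f : Cel N k →₀ ℂ) :
    f.sum (fun σ c => c * a σ.1) = ∑ j, aug (toV N f j) * a j := by
  classical
  induction f using Finsupp.induction_linear with
  | zero =>
    rw [Finsupp.sum_zero_index]
    symm
    apply Finset.sum_eq_zero
    intro j _
    have e : toV N (0 : Cel N k →₀ ℂ) j = 0 := by
      apply MonoidAlgebra.coeff_injective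
      ext x
      rfl
    rw [e]
    unfold aug
    rw [MonoidAlgebra.coeff_zero, Finsupp.sum_zero_index, zero_mul]
  | add f f' hf hf' =>
    rw [Finsupp.sum_add_index' (fun _ => zero_mul _) (fun _ _ _ => add_mul _ _ _), hf, hf',
      ← Finset.sum_add_distrib]
    refine Finset.sum_congr rfl fun j _ => ?_
    rw [toV_add, ← add_mul]
    congr 1
    unfold aug
    rw [Pi.add_apply, MonoidAlgebra.coeff_add]
    exact (Finsupp.sum_add_index' (fun _ => rfl) (fun _ _ _ => rfl)).symm
  | single z c =>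
    obtain ⟨i, y⟩ := z
    rw [Finsupp.sum_single_index (zero_mul _), toV_single, Finset.sum_eq_single i]
    · rw [Pi.single_eq_same]
      unfold aug
      rw [MonoidAlgebra.coeff_single, Finsupp.sum_single_index rfl]
    · intro j _ hj
      rw [Pi.single_eq_of_ne hj]
      unfold aug
      rw [MonoidAlgebra.coeff_zero, Finsupp.sum_zero_index, zero_mul]
    · intro h
      exact absurd (Finset.mem_univ _) h

/-- the action of the group on an ordered set of the quotient group -/
abbrev actX (X : Type v) [MulAction (G ⧸ N) X] : MulAction G X :=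
  MulAction.compHom X (QuotientGroup.mk' N)

theorem upper_of_ext (X : Type v) [LinearOrder X] [MulAction (G ⧸ N) X]
    (hX : OrdInv (G ⧸ N) X) (m : ℕ) (hN : IsFP N m) {q : ℕ → ℕ} (E : Matrices (G ⧸ N) q)
    (a : Fin (q 0) → ℂ) (w : ∀ i, Fin (q i) → X) (hE : IsUpperExact m E a w) :
    letI := actX N X
    ∃ (q' : ℕ → ℕ) (E' : Matrices G q') (a' : Fin (q' 0) → ℂ) (w' : ∀ i, Fin (q' i) → X),
      IsUpperExact m E' a' w' := by
  let _ := actX N X
  have hX' : OrdInv G X := fun g x y hxy => hX (g : G ⧸ N) x y hxy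
  have hstab : ∀ {k : ℕ} (z : Cel N k), MulAction.stabilizer G z = N := by
    rintro k ⟨j, x⟩
    ext g
    rw [MulAction.mem_stabilizer_iff, cel_smul]
    constructor
    · intro h
      have h1 : (g : G ⧸ N) * x = x := (congrArg Cel.pt h)
      rw [mul_eq_right, QuotientGroup.eq_one_iff] at h1
      exact h1
    · intro h
      rw [(QuotientGroup.eq_one_iff g).2 h, one_mul]
  refine upper_of_cells hX' m (Y := fun b => Cel N (q b)) (fun b => dV N (E b))
    (fun σ => a σ.1) (fun b σ => σ.2 • w b σ.1) ?_ ?_ ?_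
  · constructor
    · rintro g ⟨j, x⟩
      rfl
    · rintro b _ g ⟨i, y⟩
      ext ⟨j, x⟩
      have e : (Cel.mk j x) = g • (Cel.mk j ((g : G ⧸ N)⁻¹ * x)) := by
        rw [cel_smul, mul_inv_cancel_left]
      rw [cel_smul, dV_single, e, Finsupp.mapDomain_apply (MulAction.injective g), dV_single,
        mul_inv_rev, mul_assoc]
    · rintro b g ⟨j, x⟩
      change ((g : G ⧸ N) * x) • w b j = (g : G ⧸ N) • (x • w b j)
      rw [mul_smul]
    · rintro b hb ⟨i, y⟩ ⟨j, x⟩ hne
      rw [dV_single] at hne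
      have h1 := hE.heights b hb i j (y⁻¹ * x) (Finsupp.mem_support_iff.2 hne)
      have h2 := hX y _ _ h1
      rw [smul_smul, mul_inv_cancel_left] at h2
      exact h2
    · intro hm v
      rw [aug_cel, dV_apply, toV_ofV]
      exact hE.comp_zero hm _
    · intro b hb v
      rw [dV_apply, dV_apply, toV_ofV, Matrix.vecMul_vecMul, hE.comp b hb, Matrix.vecMul_zero]
      ext ⟨j, x⟩
      rfl
    · intro x
      obtain ⟨v, hv, hv0⟩ := hE.augmentation x
      obtain ⟨i, _, hi⟩ := Finset.exists_ne_zero_of_sum_ne_zero hv0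
      have h1 : (v i).coeff ≠ 0 := by
        intro h
        apply left_ne_zero_of_mul hi
        unfold aug
        rw [h, Finsupp.sum_zero_index]
      obtain ⟨g, hg⟩ := Finsupp.support_nonempty_iff.2 h1
      exact ⟨(Cel.mk i g), hv i g hg, right_ne_zero_of_mul hi⟩
    · intro hm x v hv hv0
      rw [aug_cel] at hv0
      obtain ⟨y, hy, hy0⟩ := hE.exact_zero hm x (toV N v)
        (fun j g hg => hv (Cel.mk j g)
          (show (toV N v j).coeff g ≠ 0 from Finsupp.mem_support_iff.1 hg)) hv0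
      refine ⟨ofV N y, ?_, ?_⟩
      · rintro ⟨j, g⟩ hne
        exact hy j g (Finsupp.mem_support_iff.2 hne)
      · rw [dV_apply, toV_ofV, hy0, ofV_toV]
    · intro b hb x v hv hv0
      have hv1 : toV N v ᵥ* E b = 0 := by
        have h1 := congrArg (toV N) hv0
        rw [dV_apply, toV_ofV] at h1
        rw [h1]
        apply vec_ext
        intro j x
        rfl
      obtain ⟨y, hy, hy0⟩ := hE.exact b hb x (toV N v)
        (fun j g hg => hv (Cel.mk j g)
          (show (toV N v j).coeff g ≠ 0 from Finsupp.mem_support_iff.1 hg)) hv1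
      refine ⟨ofV N y, ?_, ?_⟩
      · rintro ⟨j, g⟩ hne
        exact hy j g (Finsupp.mem_support_iff.2 hne)
      · rw [dV_apply, toV_ofV, hy0, ofV_toV]
  · intro b _
    apply Finite.of_surjective (fun j : Fin (q b) => cl G (Cel.mk j 1))
    intro o
    obtain ⟨⟨j, x⟩, hjx⟩ : ∃ z : Cel N (q b), cl G z = o := Quotient.exists_rep o
    obtain ⟨g, rfl⟩ := QuotientGroup.mk_surjective x
    refine ⟨j, ?_⟩
    rw [← hjx]
    have e : (Cel.mk j ((g : G ⧸ N))) = g • (Cel.mk j 1) := by
      rw [cel_smul, mul_one]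
    change cl G (Cel.mk j 1) = cl G (Cel.mk j ((g : G ⧸ N)))
    rw [e, cl_smul]
  · intro b hb z
    rw [hstab z]
    obtain ⟨q', R, a', hR⟩ := hN
    exact ⟨q', R, a', ⟨hR.ne, fun h => hR.augmentation (by omega),
      fun i hi => hR.comp i (by omega), fun i hi => hR.exact i (by omega)⟩⟩

end

end Run7.h31.Brown
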