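import Pool.Agent.Run7.h31.Raise.Density

set_option autoImplicit false
set_option linter.unusedSectionVars false

open scoped Matrix Pointwise

/-! Modules with a filtration which is indexed by an ordered set, and their finiteness properties. -/

namespace Run7.h31.Brown

open Run7.h31.Raise Pool.Agent.N309.LO

universe u v w

/-- a module over the group algebra, filtered by the ordered `G`-set `X` -/
structure FMod (G : Type u) [Group G] (X : Type v) [LinearOrder X] [MulAction G X] where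
  M : Type w
  [ag : AddCommGroup M]
  [md : Module (MonoidAlgebra ℂ G) M]
  lev : X → AddSubgroup M
  smul : ∀ (g : G) (c : ℂ) (x y : X) (m : M), m ∈ lev x → y ≤ g • x →
    (MonoidAlgebra.single g c : MonoidAlgebra ℂ G) • m ∈ lev y

attribute [instance] FMod.ag FMod.md

section
variable {G : Type u} [Group G] {X : Type v} [LinearOrder X] [MulAction G X]

/-- linear combinations -/
noncomputable def lc {M : Type w} [AddCommGroup M] [Module (MonoidAlgebra ℂ G) M] {k : ℕ}
    (b : Fin k → M) : (Fin k → MonoidAlgebra ℂ G) →ₗ[MonoidAlgebra ℂ G] M where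
  toFun v := ∑ j, v j • b j
  map_add' := by
    intro v v'
    simp only [Pi.add_apply, add_smul, Finset.sum_add_distrib]
  map_smul' := by
    intro a v
    simp only [Pi.smul_apply, smul_eq_mul, mul_smul, Finset.smul_sum, RingHom.id_apply]

theorem lc_apply {M : Type w} [AddCommGroup M] [Module (MonoidAlgebra ℂ G) M] {k : ℕ}
    (b : Fin k → M) (v : Fin k → MonoidAlgebra ℂ G) : lc b v = ∑ j, v j • b j := rfl

theorem lc_map {M N : Type*} [AddCommGroup M] [Module (MonoidAlgebra ℂ G) M] [AddCommGroup N]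
    [Module (MonoidAlgebra ℂ G) N] (f : M →ₗ[MonoidAlgebra ℂ G] N) {k : ℕ}
    (b : Fin k → M) (v : Fin k → MonoidAlgebra ℂ G) : f (lc b v) = lc (fun j => f (b j)) v := by
  rw [lc_apply, lc_apply, map_sum]
  exact Finset.sum_congr rfl fun j _ => map_smul f _ _

theorem lc_rows {k l : ℕ} (E : Matrix (Fin k) (Fin l) (MonoidAlgebra ℂ G))
    (v : Fin k → MonoidAlgebra ℂ G) : lc (fun j => E j) v = v ᵥ* E := by
  funext i
  rw [lc_apply, Finset.sum_apply]
  rfl

theorem alg_sum (α : MonoidAlgebra ℂ G) :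
    α = ∑ g ∈ α.coeff.support, MonoidAlgebra.single g (α.coeff g) := by
  classical
  apply MonoidAlgebra.coeff_injective
  ext g
  rw [MonoidAlgebra.coeff_sum, Finsupp.finsetSum_apply]
  by_cases hg : g ∈ α.coeff.support
  · rw [Finset.sum_eq_single g]
    · rw [MonoidAlgebra.coeff_single, Finsupp.single_eq_same]
    · intro b _ hb
      rw [MonoidAlgebra.coeff_single, Finsupp.single_eq_of_ne (Ne.symm hb)]
    · intro h
      exact absurd hg h
  · rw [Finsupp.notMem_support_iff.1 hg]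
    symm
    apply Finset.sum_eq_zero
    intro b hb
    rw [MonoidAlgebra.coeff_single, Finsupp.single_eq_of_ne]
    rintro rfl
    exact hg hb

theorem smul_lev (P : FMod.{u, v, w} G X) {x y : X} {m : P.M} (hm : m ∈ P.lev y)
    (α : MonoidAlgebra ℂ G) (h : ∀ g ∈ α.coeff.support, x ≤ g • y) : α • m ∈ P.lev x := by
  rw [alg_sum α, Finset.sum_smul]
  exact AddSubgroup.sum_mem _ fun g hg => P.smul g _ y x m hm (h g hg)

theorem lc_lev (P : FMod.{u, v, w} G X) {k : ℕ} {w : Fin k → X} {b : Fin k → P.M}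
    (hb : ∀ j, b j ∈ P.lev (w j)) {x : X} {v : Fin k → MonoidAlgebra ℂ G} (hv : Abv w x v) :
    lc b v ∈ P.lev x := by
  rw [lc_apply]
  exact AddSubgroup.sum_mem _ fun j _ => smul_lev P (hb j) _ (hv j)

/-- submodules -/
noncomputable def subF (P : FMod.{u, v, w} G X) (S : Submodule (MonoidAlgebra ℂ G) P.M) : FMod.{u, v, w} G X where
  M := S
  lev x := (P.lev x).comap S.subtype.toAddMonoidHom
  smul g c x y m hm hxy := P.smul g c x y m.1 hm hxy

theorem mem_subF (P : FMod.{u, v, w} G X) (S : Submodule (MonoidAlgebra ℂ G) P.M) (x : X)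
    (m : (subF P S).M) : m ∈ (subF P S).lev x ↔ S.subtype m ∈ P.lev x := Iff.rfl

/-- the inclusion of a submodule -/
noncomputable def subv (P : FMod.{u, v, w} G X) (S : Submodule (MonoidAlgebra ℂ G) P.M) :
    (subF P S).M →ₗ[MonoidAlgebra ℂ G] P.M := S.subtype

theorem subv_inj (P : FMod.{u, v, w} G X) (S : Submodule (MonoidAlgebra ℂ G) P.M) :
    Function.Injective (subv P S) := S.injective_subtype

theorem subv_lev (P : FMod.{u, v, w} G X) (S : Submodule (MonoidAlgebra ℂ G) P.M) (x : X)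
    (m : (subF P S).M) : m ∈ (subF P S).lev x ↔ subv P S m ∈ P.lev x := Iff.rfl

theorem subv_mem (P : FMod.{u, v, w} G X) (S : Submodule (MonoidAlgebra ℂ G) P.M)
    (m : (subF P S).M) : subv P S m ∈ S := m.2

theorem subv_mk (P : FMod.{u, v, w} G X) (S : Submodule (MonoidAlgebra ℂ G) P.M)
    (m : P.M) (hm : m ∈ S) : ∃ m' : (subF P S).M, subv P S m' = m := ⟨⟨m, hm⟩, rfl⟩

/-- free modules -/
noncomputable def freeF (hX : OrdInv G X) {k : ℕ} (w : Fin k → X) : FMod.{u, v, u} G X where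
  M := Fin k → MonoidAlgebra ℂ G
  lev x :=
    { carrier := {v | Abv w x v}
      zero_mem' := by
        intro j g hg
        exact absurd hg (by simp)
      add_mem' := by
        classical
        intro a b ha hb j g hg
        rw [Pi.add_apply, MonoidAlgebra.coeff_add] at hg
        rcases Finset.mem_union.1 (Finsupp.support_add hg) with h | h
        · exact ha j g h
        · exact hb j g h
      neg_mem' := by
        intro a ha j g hg
        apply ha j g
        rw [Finsupp.mem_support_iff] at hg ⊢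
        intro h0
        apply hg
        rw [Pi.neg_apply, MonoidAlgebra.coeff_neg, Finsupp.neg_apply, h0, neg_zero] }
  smul := by
    classical
    intro g c x y m hm hxy j t ht
    have h1 : t ∈ (MonoidAlgebra.single g c * m j).coeff.support := ht
    obtain ⟨a, ha, b, hb, hab⟩ := Finset.mem_mul.1
      (MonoidAlgebra.support_coeff_mul_subset (MonoidAlgebra.single g c) (m j) h1)
    rw [MonoidAlgebra.coeff_single] at ha
    have h2 : a = g := Finset.mem_singleton.1 (Finsupp.support_single_subset ha)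
    rw [← hab, h2, mul_smul]
    exact hxy.trans (hX g _ _ (hm j b hb))

theorem mem_freeF (hX : OrdInv G X) {k : ℕ} (w : Fin k → X) (x : X)
    (v : Fin k → MonoidAlgebra ℂ G) : (v : (freeF hX w).M) ∈ (freeF hX w).lev x ↔ Abv w x v :=
  Iff.rfl

/-- a finitely generated free module which maps onto all levels -/
structure Cover (P : FMod.{u, v, w} G X) {k : ℕ} (w : Fin k → X) (b : Fin k → P.M) : Prop where
  mem : ∀ j, b j ∈ P.lev (w j)
  surj : ∀ x, ∀ m ∈ P.lev x, ∃ v : Fin k → MonoidAlgebra ℂ G, Abv w x v ∧ lc b v = m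

/-- the beginning of a resolution by free modules, exact on all levels -/
structure MatRes (n : ℕ) (P : FMod.{u, v, w} G X) {q : ℕ → ℕ} (E : Mats G q)
    (w : ∀ i, Fin (q i) → X) (b : Fin (q 0) → P.M) : Prop where
  cov : Cover P (w 0) b
  hts : ∀ i, i + 1 ≤ n → ∀ k, Abv (w i) (w (i + 1) k) (E i k)
  comp0 : 1 ≤ n → ∀ k, lc b (E 0 k) = 0
  comp : ∀ i, i + 2 ≤ n → E (i + 1) * E i = 0
  ex0 : 1 ≤ n → ∀ (x : X) (v : Fin (q 0) → MonoidAlgebra ℂ G), Abv (w 0) x v → lc b v = 0 →
    ∃ y : Fin (q (0 + 1)) → MonoidAlgebra ℂ G, Abv (w (0 + 1)) x y ∧ y ᵥ* E 0 = v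
  ex : ∀ i, i + 2 ≤ n → ∀ (x : X) (v : Fin (q (i + 1)) → MonoidAlgebra ℂ G),
    Abv (w (i + 1)) x v → v ᵥ* E i = 0 →
    ∃ y : Fin (q (i + 1 + 1)) → MonoidAlgebra ℂ G, Abv (w (i + 1 + 1)) x y ∧ y ᵥ* E (i + 1) = v

/-- filtered modules of type `FP_n` -/
def FF (n : ℕ) (P : FMod.{u, v, w} G X) : Prop :=
  ∃ (q : ℕ → ℕ) (E : Mats G q) (w : ∀ i, Fin (q i) → X) (b : Fin (q 0) → P.M), MatRes n P E w b

theorem ff_zero {P : FMod.{u, v, w} G X} {k : ℕ} {w : Fin k → X} {b : Fin k → P.M}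
    (h : Cover P w b) : FF 0 P :=
  ⟨fun _ => k, fun _ => 0, fun _ => w, b, ⟨h, fun i hi => by omega, fun hi => by omega,
    fun i hi => by omega, fun hi => by omega, fun i hi => by omega⟩⟩

theorem FF.mono {P : FMod.{u, v, w} G X} {n m : ℕ} (h : FF n P) (hmn : m ≤ n) : FF m P := by
  obtain ⟨q, E, w, b, h⟩ := h
  exact ⟨q, E, w, b, ⟨h.cov, fun i hi => h.hts i (by omega), fun hi => h.comp0 (by omega),
    fun i hi => h.comp i (by omega), fun hi => h.ex0 (by omega), fun i hi => h.ex i (by omega)⟩⟩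

/-- the kernel of a cover -/
noncomputable abbrev kerC (hX : OrdInv G X) {P : FMod.{u, v, w} G X} {k : ℕ} (w : Fin k → X)
    (b : Fin k → P.M) : FMod.{u, v, u} G X :=
  subF (freeF hX w) (LinearMap.ker (lc b))

/-- auxiliary -/
def qc (k : ℕ) (q : ℕ → ℕ) : ℕ → ℕ
  | 0 => k
  | (i + 1) => q i

/-- auxiliary -/
def wc {k : ℕ} {q : ℕ → ℕ} (w0 : Fin k → X) (w : ∀ i, Fin (q i) → X) : ∀ i, Fin (qc k q i) → X
  | 0 => w0
  | (i + 1) => w i

/-- auxiliary -/
def Ec {k : ℕ} {q : ℕ → ℕ} (E0 : Matrix (Fin (q 0)) (Fin k) (MonoidAlgebra ℂ G)) (E : Mats G q) :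
    Mats G (qc k q)
  | 0 => E0
  | (i + 1) => E i

/-- the inclusion of the kernel -/
noncomputable def kv (hX : OrdInv G X) {P : FMod.{u, v, w} G X} {k : ℕ} (w : Fin k → X)
    (b : Fin k → P.M) : (kerC hX w b).M →ₗ[MonoidAlgebra ℂ G] (Fin k → MonoidAlgebra ℂ G) :=
  (LinearMap.ker (lc b)).subtype

theorem kv_inj (hX : OrdInv G X) {P : FMod.{u, v, w} G X} {k : ℕ} (w : Fin k → X)
    (b : Fin k → P.M) : Function.Injective (kv hX w b) :=
  (LinearMap.ker (lc b)).injective_subtype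

theorem kv_ker (hX : OrdInv G X) {P : FMod.{u, v, w} G X} {k : ℕ} (w : Fin k → X)
    (b : Fin k → P.M) (m : (kerC hX w b).M) : lc b (kv hX w b m) = 0 := m.2

theorem kv_lev (hX : OrdInv G X) {P : FMod.{u, v, w} G X} {k : ℕ} (w : Fin k → X)
    (b : Fin k → P.M) (x : X) (m : (kerC hX w b).M) :
    m ∈ (kerC hX w b).lev x ↔ Abv w x (kv hX w b m) := Iff.rfl

theorem kv_mk (hX : OrdInv G X) {P : FMod.{u, v, w} G X} {k : ℕ} (w : Fin k → X)
    (b : Fin k → P.M) (v : Fin k → MonoidAlgebra ℂ G) (hv : lc b v = 0) :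
    ∃ m : (kerC hX w b).M, kv hX w b m = v := ⟨⟨v, hv⟩, rfl⟩

theorem kv_lc (hX : OrdInv G X) {P : FMod.{u, v, w} G X} {k : ℕ} (w : Fin k → X)
    (b : Fin k → P.M) {l : ℕ} (b' : Fin l → (kerC hX w b).M) (v : Fin l → MonoidAlgebra ℂ G) :
    kv hX w b (lc b' v) = v ᵥ* (Matrix.of fun j => kv hX w b (b' j)) := by
  rw [lc_map, ← lc_rows]
  rfl

theorem ff_of_cover (hX : OrdInv G X) {P : FMod.{u, v, w} G X} {k : ℕ} {w : Fin k → X}
    {b : Fin k → P.M} (h : Cover P w b) {n : ℕ} (hk : FF n (kerC hX w b)) : FF (n + 1) P := by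
  obtain ⟨q, E, w', b', h'⟩ := hk
  refine ⟨qc k q, Ec (Matrix.of fun j => kv hX w b (b' j)) E, wc w w', b, ?_⟩
  refine ⟨h, ?_, ?_, ?_, ?_, ?_⟩
  · intro i hi r
    rcases i with _ | i
    · exact h'.cov.mem r
    · exact h'.hts i (by omega) r
  · intro _ r
    exact kv_ker hX w b (b' r)
  · intro i hi
    rcases i with _ | i
    · funext r
      have h1 := h'.comp0 (by omega) r
      have h2 := kv_lc hX w b b' (E 0 r)
      rw [h1, map_zero] at h2
      exact h2.symm
    · exact h'.comp i (by omega)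
  · intro _ x v hv hv0
    obtain ⟨m, rfl⟩ := kv_mk hX w b v hv0
    obtain ⟨y, hy, hy0⟩ := h'.cov.surj x m hv
    refine ⟨y, hy, ?_⟩
    have h2 := kv_lc hX w b b' y
    rw [hy0] at h2
    exact h2.symm
  · intro i hi x v hv hv0
    rcases i with _ | i
    · obtain ⟨y, hy, hy0⟩ := h'.ex0 (by omega) x v hv (by
        apply kv_inj hX w b
        refine (kv_lc hX w b b' v).trans ?_
        rw [map_zero]
        exact hv0)
      exact ⟨y, hy, hy0⟩
    · exact h'.ex i (by omega) x v hv hv0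

theorem cover_of_ff (hX : OrdInv G X) {P : FMod.{u, v, w} G X} {n : ℕ} (h : FF (n + 1) P) :
    ∃ (k : ℕ) (w : Fin k → X) (b : Fin k → P.M), Cover P w b ∧ FF n (kerC hX w b) := by
  obtain ⟨q, E, w, b, h⟩ := h
  have hm : ∀ j : Fin (q (0 + 1)), ∃ m : (kerC hX (w 0) b).M, kv hX (w 0) b m = E 0 j :=
    fun j => kv_mk hX (w 0) b _ (h.comp0 (by omega) j)
  choose b' hb' using hm
  have hE : (Matrix.of fun j => kv hX (w 0) b (b' j)) = E 0 := by
    funext j
    exact hb' j
  have hl : ∀ v, kv hX (w 0) b (lc b' v) = v ᵥ* E 0 := by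
    intro v
    rw [kv_lc, hE]
  refine ⟨q 0, w 0, b, h.cov, fun i => q (i + 1), fun i => E (i + 1), fun i => w (i + 1), b', ?_⟩
  refine ⟨⟨?_, ?_⟩, ?_, ?_, ?_, ?_, ?_⟩
  · intro j
    rw [kv_lev, hb']
    exact h.hts 0 (by omega) j
  · intro x m hm
    obtain ⟨y, hy, hy0⟩ := h.ex0 (by omega) x (kv hX (w 0) b m) hm (kv_ker hX (w 0) b m)
    refine ⟨y, hy, ?_⟩
    apply kv_inj hX (w 0) b
    rw [hl, hy0]
  · intro i hi
    exact h.hts (i + 1) (by omega)
  · intro _ r
    apply kv_inj hX (w 0) b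
    rw [hl, map_zero]
    exact congrFun (h.comp 0 (by omega)) r
  · intro i hi
    exact h.comp (i + 1) (by omega)
  · intro _ x v hv hv0
    apply h.ex 0 (by omega) x v hv
    rw [← hl v, hv0, map_zero]
  · intro i hi
    exact h.ex (i + 1) (by omega)

theorem cover_of_ff' {P : FMod.{u, v, w} G X} {n : ℕ} (h : FF n P) :
    ∃ (k : ℕ) (w : Fin k → X) (b : Fin k → P.M), Cover P w b := by
  obtain ⟨q, E, w, b, h⟩ := h
  exact ⟨q 0, w 0, b, h.cov⟩

/-- short exact sequences, exact on all levels -/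
structure SES (A B C : FMod.{u, v, w} G X) where
  i : A.M →ₗ[MonoidAlgebra ℂ G] B.M
  p : B.M →ₗ[MonoidAlgebra ℂ G] C.M
  inj : Function.Injective i
  ex : ∀ b, p b = 0 → ∃ a, i a = b
  comp : ∀ a, p (i a) = 0
  lev_i : ∀ x a, a ∈ A.lev x ↔ i a ∈ B.lev x
  surj : ∀ x, ∀ c ∈ C.lev x, ∃ b ∈ B.lev x, p b = c
  lev_p : ∀ x, ∀ b ∈ B.lev x, p b ∈ C.lev x

theorem lc_append {M : Type w} [AddCommGroup M] [Module (MonoidAlgebra ℂ G) M] {k l : ℕ}
    (b : Fin k → M) (b' : Fin l → M) (v : Fin (k + l) → MonoidAlgebra ℂ G) :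
    lc (Fin.append b b') v = lc b (fun j => v (Fin.castAdd l j)) + lc b' (fun j => v (Fin.natAdd k j)) := by
  rw [lc_apply, lc_apply, lc_apply, Fin.sum_univ_add]
  simp only [Fin.append_left, Fin.append_right]

theorem abv_append {k l : ℕ} (w : Fin k → X) (w' : Fin l → X) (x : X)
    (v : Fin (k + l) → MonoidAlgebra ℂ G) :
    Abv (Fin.append w w') x v ↔ Abv w x (fun j => v (Fin.castAdd l j)) ∧
      Abv w' x (fun j => v (Fin.natAdd k j)) := by
  constructor
  · intro h
    refine ⟨fun j g hg => ?_, fun j g hg => ?_⟩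
    · have := h (Fin.castAdd l j) g hg
      rwa [Fin.append_left] at this
    · have := h (Fin.natAdd k j) g hg
      rwa [Fin.append_right] at this
  · rintro ⟨h1, h2⟩ j
    refine Fin.addCases (fun i => ?_) (fun i => ?_) j
    · intro g hg
      rw [Fin.append_left]
      exact h1 i g hg
    · intro g hg
      rw [Fin.append_right]
      exact h2 i g hg

theorem abv_zero {k : ℕ} (w : Fin k → X) (x : X) : Abv w x (0 : Fin k → MonoidAlgebra ℂ G) := by
  intro j g hg
  exact absurd hg (by simp)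

end

end Run7.h31.Brown
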