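import Pool.Agent.Run7.h31.Brown.Filt

set_option autoImplicit false
set_option linter.unusedSectionVars false

open scoped Matrix Pointwise

/-! Extensions and quotients of filtered modules of type `FP_n`. -/

namespace Run7.h31.Brown

open Run7.h31.Raise Pool.Agent.N309.LO

universe u v w

section
variable {G : Type u} [Group G] {X : Type v} [LinearOrder X] [MulAction G X]

/-- the inclusion of the first summand -/
noncomputable def inlL (G : Type u) [Group G] (k l : ℕ) :
    (Fin k → MonoidAlgebra ℂ G) →ₗ[MonoidAlgebra ℂ G] (Fin (k + l) → MonoidAlgebra ℂ G) where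
  toFun v := Fin.append v 0
  map_add' := by
    intro v v'
    funext j
    refine Fin.addCases (fun i => ?_) (fun i => ?_) j
    · rw [Pi.add_apply, Fin.append_left, Fin.append_left, Fin.append_left, Pi.add_apply]
    · rw [Pi.add_apply, Fin.append_right, Fin.append_right, Fin.append_right, Pi.zero_apply,
        add_zero]
  map_smul' := by
    intro a v
    funext j
    refine Fin.addCases (fun i => ?_) (fun i => ?_) j
    · rw [Pi.smul_apply, Fin.append_left, Fin.append_left, Pi.smul_apply, RingHom.id_apply]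
    · rw [Pi.smul_apply, Fin.append_right, Fin.append_right, Pi.zero_apply, smul_zero]

/-- the projection to the second summand -/
noncomputable def sndL (G : Type u) [Group G] (k l : ℕ) :
    (Fin (k + l) → MonoidAlgebra ℂ G) →ₗ[MonoidAlgebra ℂ G] (Fin l → MonoidAlgebra ℂ G) where
  toFun v := fun j => v (Fin.natAdd k j)
  map_add' := fun _ _ => rfl
  map_smul' := fun _ _ => rfl

theorem abv_app {k l : ℕ} {w : Fin k → X} {w' : Fin l → X} {x : X} {v : Fin k → MonoidAlgebra ℂ G}
    {v' : Fin l → MonoidAlgebra ℂ G} :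
    Abv (Fin.append w w') x (Fin.append v v') ↔ Abv w x v ∧ Abv w' x v' := by
  rw [abv_append]
  have e1 : (fun j => Fin.append v v' (Fin.castAdd l j)) = v := by
    funext j
    exact Fin.append_left _ _ _
  have e2 : (fun j => Fin.append v v' (Fin.natAdd k j)) = v' := by
    funext j
    exact Fin.append_right _ _ _
  rw [e1, e2]

theorem app_castAdd {k l : ℕ} (v : Fin k → MonoidAlgebra ℂ G) (v' : Fin l → MonoidAlgebra ℂ G) :
    (fun j => Fin.append v v' (Fin.castAdd l j)) = v := by
  funext j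
  exact Fin.append_left _ _ _

theorem app_natAdd {k l : ℕ} (v : Fin k → MonoidAlgebra ℂ G) (v' : Fin l → MonoidAlgebra ℂ G) :
    (fun j => Fin.append v v' (Fin.natAdd k j)) = v' := by
  funext j
  exact Fin.append_right _ _ _

theorem app_eta {k l : ℕ} (v : Fin (k + l) → MonoidAlgebra ℂ G) :
    Fin.append (fun j => v (Fin.castAdd l j)) (fun j => v (Fin.natAdd k j)) = v := by
  funext j
  refine Fin.addCases (fun i => ?_) (fun i => ?_) j
  · exact Fin.append_left _ _ _
  · exact Fin.append_right _ _ _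

theorem app_inj {k l : ℕ} {v v' : Fin k → MonoidAlgebra ℂ G} {u u' : Fin l → MonoidAlgebra ℂ G}
    (h : Fin.append v u = Fin.append v' u') : v = v' := by
  rw [← app_castAdd v u, h, app_castAdd]

theorem horse_step (hX : OrdInv G X) {A B C : FMod.{u, v, w} G X} (S : SES A B C) {k l : ℕ}
    {wA : Fin k → X} {bA : Fin k → A.M} {wC : Fin l → X} {bC : Fin l → C.M} (hA : Cover A wA bA)
    (hC : Cover C wC bC) :
    ∃ b : Fin (k + l) → B.M, Cover B (Fin.append wA wC) b ∧
      Nonempty (SES (kerC hX wA bA) (kerC hX (Fin.append wA wC) b) (kerC hX wC bC)) := by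
  have h1 : ∀ j, ∃ β ∈ B.lev (wC j), S.p β = bC j := fun j => S.surj _ _ (hC.mem j)
  choose β hβ hβp using h1
  have hl : ∀ v : Fin (k + l) → MonoidAlgebra ℂ G, lc (Fin.append (fun j => S.i (bA j)) β) v
      = S.i (lc bA (fun j => v (Fin.castAdd l j))) + lc β (fun j => v (Fin.natAdd k j)) := by
    intro v
    rw [lc_append, lc_map]
  have hp : ∀ v : Fin l → MonoidAlgebra ℂ G, S.p (lc β v) = lc bC v := by
    intro v
    rw [lc_map]
    congr 1
    congr 1
    funext j
    exact hβp j
  have hpl : ∀ v : Fin (k + l) → MonoidAlgebra ℂ G, S.p (lc (Fin.append (fun j => S.i (bA j)) β) v)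
      = lc bC (fun j => v (Fin.natAdd k j)) := by
    intro v
    rw [hl, map_add, S.comp, zero_add, hp]
  refine ⟨Fin.append (fun j => S.i (bA j)) β, ⟨?_, ?_⟩, ⟨?_⟩⟩
  · intro j
    refine Fin.addCases (fun i => ?_) (fun i => ?_) j
    · rw [Fin.append_left, Fin.append_left]
      exact (S.lev_i _ _).1 (hA.mem i)
    · rw [Fin.append_right, Fin.append_right]
      exact hβ i
  · intro x m hm
    obtain ⟨v₂, hv₂, hv₂p⟩ := hC.surj x _ (S.lev_p x m hm)
    have h2 : S.p (m - lc β v₂) = 0 := by
      rw [map_sub, hp, hv₂p, sub_self]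
    obtain ⟨a, ha⟩ := S.ex _ h2
    have h3 : a ∈ A.lev x := by
      rw [S.lev_i, ha]
      exact AddSubgroup.sub_mem _ hm (lc_lev B hβ hv₂)
    obtain ⟨v₁, hv₁, hv₁p⟩ := hA.surj x a h3
    refine ⟨Fin.append v₁ v₂, abv_app.2 ⟨hv₁, hv₂⟩, ?_⟩
    rw [hl, app_castAdd, app_natAdd, hv₁p, ha, sub_add_cancel]
  · set b := Fin.append (fun j => S.i (bA j)) β with hb
    have ki : ∀ m : LinearMap.ker (lc (G := G) bA), (inlL G k l ∘ₗ (LinearMap.ker (lc (G := G) bA)).subtype) m
        ∈ LinearMap.ker (lc (G := G) b) := by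
      intro m
      change lc b (Fin.append m.1 0) = 0
      rw [hl, app_castAdd, app_natAdd, map_zero, add_zero]
      have e3 : lc bA m.1 = 0 := m.2
      rw [e3, map_zero]
    have kp : ∀ m : LinearMap.ker (lc (G := G) b), (sndL G k l ∘ₗ (LinearMap.ker (lc (G := G) b)).subtype) m
        ∈ LinearMap.ker (lc (G := G) bC) := by
      intro m
      rw [LinearMap.mem_ker]
      have e3 : lc b m.1 = 0 := m.2
      have e4 := hpl m.1
      rw [e3, map_zero] at e4
      exact e4.symm
    refine
      { i := LinearMap.codRestrict (LinearMap.ker (lc (G := G) b))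
          (inlL G k l ∘ₗ (LinearMap.ker (lc (G := G) bA)).subtype) ki
        p := LinearMap.codRestrict (LinearMap.ker (lc (G := G) bC))
          (sndL G k l ∘ₗ (LinearMap.ker (lc (G := G) b)).subtype) kp
        inj := ?_
        ex := ?_
        comp := ?_
        lev_i := ?_
        surj := ?_
        lev_p := ?_ }
    · intro m m' h
      apply kv_inj hX wA bA
      have h1 : Fin.append (kv hX wA bA m) (0 : Fin l → MonoidAlgebra ℂ G)
          = Fin.append (kv hX wA bA m') 0 := congrArg Subtype.val h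
      exact app_inj h1
    · intro m h
      have h1 : (fun j => kv hX (Fin.append wA wC) b m (Fin.natAdd k j)) = 0 :=
        congrArg Subtype.val h
      have h2 := kv_ker hX (Fin.append wA wC) b m
      rw [hl, h1, map_zero, add_zero] at h2
      have h3 : lc bA (fun j => kv hX (Fin.append wA wC) b m (Fin.castAdd l j)) = 0 :=
        S.inj (by rw [h2, map_zero])
      obtain ⟨a, ha⟩ := kv_mk hX wA bA _ h3
      refine ⟨a, ?_⟩
      apply kv_inj hX (Fin.append wA wC) b
      change Fin.append (kv hX wA bA a) 0 = _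
      rw [ha, ← h1, app_eta]
    · intro m
      apply kv_inj hX wC bC
      rw [map_zero]
      exact app_natAdd (kv hX wA bA m) 0
    · intro x m
      rw [kv_lev]
      change _ ↔ Abv (Fin.append wA wC) x (Fin.append (kv hX wA bA m) 0)
      rw [abv_app]
      exact ⟨fun h => ⟨h, abv_zero _ _⟩, fun h => h.1⟩
    · intro x m hm
      rw [kv_lev] at hm
      have h1 : lc β (kv hX wC bC m) ∈ B.lev x := lc_lev B hβ hm
      have h2 : S.p (lc β (kv hX wC bC m)) = 0 := by
        rw [hp]
        exact kv_ker hX wC bC m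
      obtain ⟨a, ha⟩ := S.ex _ h2
      have h3 : a ∈ A.lev x := by
        rw [S.lev_i, ha]
        exact h1
      obtain ⟨v₁, hv₁, hv₁p⟩ := hA.surj x (-a) (AddSubgroup.neg_mem _ h3)
      have h4 : lc b (Fin.append v₁ (kv hX wC bC m)) = 0 := by
        rw [hl, app_castAdd, app_natAdd, hv₁p, map_neg, ha, neg_add_cancel]
      obtain ⟨m', hm'⟩ := kv_mk hX (Fin.append wA wC) b _ h4
      refine ⟨m', ?_, ?_⟩
      · rw [kv_lev, hm']
        exact abv_app.2 ⟨hv₁, hm⟩
      · apply kv_inj hX wC bC
        change (fun j => kv hX (Fin.append wA wC) b m' (Fin.natAdd k j)) = _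
        rw [hm', app_natAdd]
    · intro x m hm
      rw [kv_lev] at hm ⊢
      exact ((abv_append wA wC x _).1 hm).2

theorem horse (hX : OrdInv G X) (n : ℕ) : ∀ (A B C : FMod.{u, v, u} G X), SES A B C →
    FF n A → FF n C → FF n B := by
  induction n with
  | zero =>
    intro A B C S hA hC
    obtain ⟨k, wA, bA, hA⟩ := cover_of_ff' hA
    obtain ⟨l, wC, bC, hC⟩ := cover_of_ff' hC
    obtain ⟨b, hb, _⟩ := horse_step hX S hA hC
    exact ff_zero hb
  | succ n ih =>
    intro A B C S hA hC
    obtain ⟨k, wA, bA, hA, hkA⟩ := cover_of_ff hX hA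
    obtain ⟨l, wC, bC, hC, hkC⟩ := cover_of_ff hX hC
    obtain ⟨b, hb, ⟨S'⟩⟩ := horse_step hX S hA hC
    exact ff_of_cover hX hb (ih _ _ _ S' hkA hkC)

/-- surjective on all levels -/
structure LevSurj {B : FMod.{u, v, u} G X} {C : FMod.{u, v, w} G X}
    (p : B.M →ₗ[MonoidAlgebra ℂ G] C.M) : Prop where
  lev : ∀ x, ∀ b ∈ B.lev x, p b ∈ C.lev x
  surj : ∀ x, ∀ c ∈ C.lev x, ∃ b ∈ B.lev x, p b = c

theorem cover_comp {B : FMod.{u, v, u} G X} {C : FMod.{u, v, w} G X}
    {p : B.M →ₗ[MonoidAlgebra ℂ G] C.M} (hp : LevSurj p) {k : ℕ} {w : Fin k → X}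
    {b : Fin k → B.M} (h : Cover B w b) : Cover C w (fun j => p (b j)) := by
  refine ⟨fun j => hp.lev _ _ (h.mem j), ?_⟩
  intro x c hc
  obtain ⟨m, hm, rfl⟩ := hp.surj x c hc
  obtain ⟨v, hv, rfl⟩ := h.surj x m hm
  exact ⟨v, hv, (lc_map p b v).symm⟩

theorem cone_zero {B : FMod.{u, v, u} G X} {C : FMod.{u, v, w} G X}
    {p : B.M →ₗ[MonoidAlgebra ℂ G] C.M} (hp : LevSurj p) (h : FF 0 B) : FF 0 C := by
  obtain ⟨k, w, b, hb⟩ := cover_of_ff' h
  exact ff_zero (cover_comp hp hb)

theorem cone_succ (hX : OrdInv G X) {B : FMod.{u, v, u} G X} {C : FMod.{u, v, w} G X}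
    {p : B.M →ₗ[MonoidAlgebra ℂ G] C.M} (hp : LevSurj p) {n : ℕ} (h : FF (n + 1) B)
    (hk : FF n (subF B (LinearMap.ker p))) : FF (n + 1) C := by
  obtain ⟨k, w, b, hb, hkb⟩ := cover_of_ff hX h
  refine ff_of_cover hX (cover_comp hp hb) ?_
  refine horse hX n (kerC hX w b) (kerC hX w (fun j => p (b j))) (subF B (LinearMap.ker p)) ?_
    hkb hk
  have ki : ∀ m : LinearMap.ker (lc (G := G) b), (LinearMap.ker (lc (G := G) b)).subtype m
      ∈ LinearMap.ker (lc (G := G) (fun j => p (b j))) := by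
    intro m
    rw [LinearMap.mem_ker, ← lc_map]
    have e : lc b m.1 = 0 := m.2
    change p (lc b m.1) = 0
    rw [e, map_zero]
  have kp : ∀ m : LinearMap.ker (lc (G := G) (fun j => p (b j))),
      (lc b ∘ₗ (LinearMap.ker (lc (G := G) (fun j => p (b j)))).subtype) m ∈ LinearMap.ker p := by
    intro m
    rw [LinearMap.mem_ker]
    have e : lc (fun j => p (b j)) m.1 = 0 := m.2
    rw [← lc_map] at e
    exact e
  refine
    { i := LinearMap.codRestrict (LinearMap.ker (lc (G := G) (fun j => p (b j))))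
        (LinearMap.ker (lc (G := G) b)).subtype ki
      p := LinearMap.codRestrict (LinearMap.ker p)
        (lc b ∘ₗ (LinearMap.ker (lc (G := G) (fun j => p (b j)))).subtype) kp
      inj := ?_
      ex := ?_
      comp := ?_
      lev_i := ?_
      surj := ?_
      lev_p := ?_ }
  · intro m m' h
    apply Subtype.ext
    exact congrArg (fun z : LinearMap.ker (lc (G := G) (fun j => p (b j))) => z.1) h
  · intro m h
    have h1 : lc b m.1 = 0 := congrArg (fun z : LinearMap.ker p => z.1) h
    exact ⟨⟨m.1, h1⟩, rfl⟩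
  · intro m
    apply Subtype.ext
    exact m.2
  · intro x m
    exact Iff.rfl
  · intro x m hm
    have hm1 : m.1 ∈ B.lev x := hm
    obtain ⟨v, hv, hv0⟩ := hb.surj x m.1 hm1
    have h1 : lc (fun j => p (b j)) v = 0 := by
      rw [← lc_map, hv0]
      exact m.2
    refine ⟨⟨v, h1⟩, hv, ?_⟩
    apply Subtype.ext
    exact hv0
  · intro x m hm
    have hm1 : Abv w x m.1 := hm
    exact lc_lev B hb.mem hm1

end

end Run7.h31.Brown
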