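import Pool.Agent.Run7.h31.Brown.Cplx
import Pool.Agent.Run7.h31.Raise.Index

set_option autoImplicit false
set_option linter.unusedSectionVars false

open scoped Matrix Pointwise

/-! Permutation modules with finitely many orbits and stabilizers of type `FP_n`. -/

namespace Run7.h31.Brown

open Run7.h31.Raise Pool.Agent.N309.LO
open Pool.Agent.Results.MP_984acc_gt.OrderRaising

universe u v w

/-- The group `S` is of type `FP_n` over `ℂ`. -/
def IsFP (S : Type u) [Group S] (n : ℕ) : Prop :=
  ∃ (q : ℕ → ℕ) (R : Matrices S q) (a : Fin (q 0) → ℂ), IsPartialResolution n R a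

section ind
variable {G : Type u} [Group G] (S : Subgroup G)

/-- the inclusion of the group algebras -/
noncomputable def io : MonoidAlgebra ℂ S →+* MonoidAlgebra ℂ G :=
  MonoidAlgebra.mapDomainRingHom ℂ S.subtype

theorem io_single (s : S) (c : ℂ) :
    io S (MonoidAlgebra.single s c) = MonoidAlgebra.single (s : G) c :=
  MonoidAlgebra.mapDomain_single

theorem io_support (β : MonoidAlgebra ℂ S) (g : G) (hg : g ∈ (io S β).coeff.support) : g ∈ S := by
  by_contra h
  apply Finsupp.mem_support_iff.1 hg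
  clear hg
  induction β using MonoidAlgebra.induction_linear with
  | zero => rw [map_zero]; rfl
  | add a b ha hb => rw [map_add, MonoidAlgebra.coeff_add, Finsupp.add_apply, ha, hb, add_zero]
  | single s c =>
    rw [io_single, MonoidAlgebra.coeff_single, Finsupp.single_eq_of_ne]
    rintro rfl
    exact h s.2

theorem dec_mul (t : G) (α : MonoidAlgebra ℂ G) (β : MonoidAlgebra ℂ S) :
    rr S t 1 (α * io S β) = rr S t 1 α * β := by
  induction α using MonoidAlgebra.induction_linear with
  | zero => rw [zero_mul, rr_zero, zero_mul]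
  | add a b ha hb => rw [add_mul, rr_add, rr_add, ha, hb, add_mul]
  | single g c =>
    induction β using MonoidAlgebra.induction_linear with
    | zero => rw [map_zero, mul_zero, rr_zero, mul_zero]
    | add a b ha hb => rw [map_add, mul_add, rr_add, ha, hb, mul_add]
    | single s c' =>
      rw [io_single, MonoidAlgebra.single_mul_single]
      by_cases h : t⁻¹ * g * 1 ∈ S
      · have h' : t⁻¹ * (g * s) * 1 ∈ S := by
          have e : t⁻¹ * (g * (s : G)) * 1 = (t⁻¹ * g * 1) * s := by group
          rw [e]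
          exact S.mul_mem h s.2
        rw [rr_single_mem S h, rr_single_mem S h', MonoidAlgebra.single_mul_single]
        congr 1
        apply Subtype.ext
        change t⁻¹ * (g * (s : G)) * 1 = (t⁻¹ * g * 1) * s
        group
      · have h' : t⁻¹ * (g * s) * 1 ∉ S := by
          intro h1
          apply h
          have e : t⁻¹ * g * 1 = (t⁻¹ * (g * (s : G)) * 1) * (s : G)⁻¹ := by group
          rw [e]
          exact S.mul_mem h1 (S.inv_mem s.2)
        rw [rr_single_not S h, rr_single_not S h', zero_mul]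

/-- the part in one coset -/
noncomputable def rv {k : ℕ} (t : G) (v : Fin k → MonoidAlgebra ℂ G) :
    Fin k → MonoidAlgebra ℂ S := fun j => rr S t 1 (v j)

theorem rv_vecMul {k l : ℕ} (t : G) (v : Fin k → MonoidAlgebra ℂ G)
    (M : Matrix (Fin k) (Fin l) (MonoidAlgebra ℂ S)) :
    rv S t (v ᵥ* M.map (io S)) = rv S t v ᵥ* M := by
  funext j
  change rr S t 1 (∑ i, v i * io S (M i j)) = ∑ i, rr S t 1 (v i) * M i j
  rw [rr_sum]
  exact Finset.sum_congr rfl fun i _ => dec_mul S t _ _

/-- the translate of a vector over the subgroup -/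
noncomputable def blk {k : ℕ} (t : G) (z : Fin k → MonoidAlgebra ℂ S) :
    Fin k → MonoidAlgebra ℂ G := fun j => MonoidAlgebra.single t 1 * io S (z j)

theorem blk_vecMul {k l : ℕ} (t : G) (z : Fin k → MonoidAlgebra ℂ S)
    (M : Matrix (Fin k) (Fin l) (MonoidAlgebra ℂ S)) :
    blk S t z ᵥ* M.map (io S) = blk S t (z ᵥ* M) := by
  funext j
  change ∑ i, (MonoidAlgebra.single t 1 * io S (z i)) * io S (M i j)
    = MonoidAlgebra.single t 1 * io S (∑ i, z i * M i j)
  rw [map_sum, Finset.mul_sum]
  refine Finset.sum_congr rfl fun i _ => ?_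
  rw [map_mul, mul_assoc]

theorem blk_support {k : ℕ} (t : G) (z : Fin k → MonoidAlgebra ℂ S) (j : Fin k) (g : G)
    (hg : g ∈ (blk S t z j).coeff.support) : ∃ s : S, g = t * s := by
  classical
  obtain ⟨a, ha, b, hb, hab⟩ := Finset.mem_mul.1
    (MonoidAlgebra.support_coeff_mul_subset (MonoidAlgebra.single t 1) (io S (z j)) hg)
  rw [MonoidAlgebra.coeff_single] at ha
  have h2 : a = t := Finset.mem_singleton.1 (Finsupp.support_single_subset ha)
  exact ⟨⟨b, io_support S _ _ hb⟩, by rw [← hab, h2]⟩

theorem recon_single (T : Finset (G ⧸ S)) (g : G) (c : ℂ) (hg : (g : G ⧸ S) ∈ T) :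
    ∑ q ∈ T, MonoidAlgebra.single q.out 1 * io S (rr S q.out 1 (MonoidAlgebra.single g c))
      = MonoidAlgebra.single g c := by
  classical
  rw [Finset.sum_eq_single (g : G ⧸ S)]
  · have h : ((g : G ⧸ S).out)⁻¹ * g * 1 ∈ S := by
      rw [mul_one, ← QuotientGroup.eq]
      exact QuotientGroup.out_eq' _
    rw [rr_single_mem S h, io_single, MonoidAlgebra.single_mul_single, one_mul]
    congr 1
    change (g : G ⧸ S).out * (((g : G ⧸ S).out)⁻¹ * g * 1) = g
    group
  · intro q _ hq
    have h : (q.out)⁻¹ * g * 1 ∉ S := by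
      intro h
      rw [mul_one, ← QuotientGroup.eq] at h
      apply hq
      rw [← h]
      exact (QuotientGroup.out_eq' q).symm
    rw [rr_single_not S h, map_zero, mul_zero]
  · intro h
    exact absurd hg h

theorem recon (T : Finset (G ⧸ S)) (α : MonoidAlgebra ℂ G)
    (hα : ∀ g ∈ α.coeff.support, (g : G ⧸ S) ∈ T) :
    ∑ q ∈ T, MonoidAlgebra.single q.out 1 * io S (rr S q.out 1 α) = α := by
  have h1 : ∀ (s : Finset G) (f : G → ℂ), (∀ g ∈ s, (g : G ⧸ S) ∈ T) →
      ∑ q ∈ T, MonoidAlgebra.single q.out 1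
        * io S (rr S q.out 1 (∑ g ∈ s, MonoidAlgebra.single g (f g)))
      = ∑ g ∈ s, MonoidAlgebra.single g (f g) := by
    intro s f hs
    have h2 : ∀ q : G ⧸ S, MonoidAlgebra.single q.out 1
        * io S (rr S q.out 1 (∑ g ∈ s, MonoidAlgebra.single g (f g)))
        = ∑ g ∈ s, MonoidAlgebra.single q.out 1
          * io S (rr S q.out 1 (MonoidAlgebra.single g (f g))) := by
      intro q
      rw [rr_sum, map_sum, Finset.mul_sum]
    rw [Finset.sum_congr rfl fun q _ => h2 q, Finset.sum_comm]
    exact Finset.sum_congr rfl fun g hg => recon_single S T g _ (hs g hg)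
  have h2 := h1 α.coeff.support α.coeff hα
  rwa [← alg_sum α] at h2

variable {X : Type v} [LinearOrder X] [MulAction G X]

theorem induce_solve {k l : ℕ} (N : Matrix (Fin l) (Fin k) (MonoidAlgebra ℂ S)) (w0 : X)
    (hw0 : ∀ s : S, (s : G) • w0 = w0) (x : X) (v : Fin k → MonoidAlgebra ℂ G)
    (hv : Abv (fun _ => w0) x v) (h : ∀ t : G, ∃ y, y ᵥ* N = rv S t v) :
    ∃ y : Fin l → MonoidAlgebra ℂ G, Abv (fun _ => w0) x y ∧ y ᵥ* N.map (io S) = v := by
  classical
  choose y hy using h
  set T : Finset (G ⧸ S) := Finset.univ.biUnion (fun j : Fin k =>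
    (v j).coeff.support.image (fun g : G => (g : G ⧸ S))) with hT
  have hT' : ∀ j, ∀ g ∈ (v j).coeff.support, (g : G ⧸ S) ∈ T := by
    intro j g hg
    exact Finset.mem_biUnion.2 ⟨j, Finset.mem_univ _, Finset.mem_image_of_mem _ hg⟩
  have hTx : ∀ q ∈ T, x ≤ (q.out : G) • w0 := by
    intro q hq
    obtain ⟨j, _, hj⟩ := Finset.mem_biUnion.1 hq
    obtain ⟨g, hg, rfl⟩ := Finset.mem_image.1 hj
    have h1 := hv j g hg
    have h2 : ((g : G ⧸ S).out)⁻¹ * g ∈ S := by
      rw [← QuotientGroup.eq]
      exact QuotientGroup.out_eq' _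
    have h3 := hw0 ⟨_, h2⟩
    have e : g • w0 = (g : G ⧸ S).out • w0 := by
      conv_rhs => rw [← h3]
      rw [smul_smul]
      change _ = ((g : G ⧸ S).out * (((g : G ⧸ S).out)⁻¹ * g)) • w0
      rw [mul_inv_cancel_left]
    rwa [← e]
  refine ⟨fun j => ∑ q ∈ T, blk S q.out (y q.out) j, ?_, ?_⟩
  · intro j g hg
    have h1 : ∃ q ∈ T, (blk S q.out (y q.out) j).coeff g ≠ 0 := by
      by_contra hcon
      push Not at hcon
      rw [Finsupp.mem_support_iff, MonoidAlgebra.coeff_sum, Finsupp.finsetSum_apply] at hg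
      exact hg (Finset.sum_eq_zero fun q hq => hcon q hq)
    obtain ⟨q, hq, hqg⟩ := h1
    obtain ⟨s, rfl⟩ := blk_support S _ _ j g (Finsupp.mem_support_iff.2 hqg)
    change x ≤ ((q.out : G) * (s : G)) • w0
    rw [mul_smul, hw0 s]
    exact hTx q hq
  · have e1 : (fun j => ∑ q ∈ T, blk S q.out (y q.out) j) = ∑ q ∈ T, blk S q.out (y q.out) := by
      funext j
      rw [Finset.sum_apply]
    rw [e1]
    have e2 : (∑ q ∈ T, blk S q.out (y q.out)) ᵥ* N.map (io S)
        = ∑ q ∈ T, blk S q.out (y q.out) ᵥ* N.map (io S) := by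
      funext i
      rw [Finset.sum_apply]
      change ∑ j, (∑ q ∈ T, blk S q.out (y q.out)) j * _ = _
      have e3 : ∀ j, (∑ q ∈ T, blk S q.out (y q.out)) j * (N.map (io S)) j i
          = ∑ q ∈ T, blk S q.out (y q.out) j * (N.map (io S)) j i := by
        intro j
        rw [Finset.sum_apply, Finset.sum_mul]
      rw [Finset.sum_congr rfl fun j _ => e3 j, Finset.sum_comm]
      rfl
    rw [e2]
    funext j
    rw [Finset.sum_apply]
    have e4 : ∀ q : G ⧸ S, (blk S q.out (y q.out) ᵥ* N.map (io S)) j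
        = MonoidAlgebra.single q.out 1 * io S (rr S q.out 1 (v j)) := by
      intro q
      rw [blk_vecMul, hy]
      rfl
    rw [Finset.sum_congr rfl fun q _ => e4 q]
    exact recon S T (v j) (hT' j)

end ind

section orbit
variable {G : Type u} [Group G] {X : Type v} [LinearOrder X] [MulAction G X]
variable {Y : Type u} [MulAction G Y]

theorem toF_delta (y₀ : Y) (t : G) (α : MonoidAlgebra ℂ G) (c : ℂ) :
    toF (α • (ofF (Finsupp.single y₀ c) : PM G Y)) (t • y₀)
      = aug (rr (MulAction.stabilizer G y₀) t 1 α) * c := by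
  induction α using MonoidAlgebra.induction_linear with
  | zero =>
    rw [zero_smul, map_zero toF, rr_zero]
    unfold aug
    rw [MonoidAlgebra.coeff_zero, Finsupp.sum_zero_index, zero_mul]
    rfl
  | add a b ha hb =>
    rw [add_smul, map_add toF, Finsupp.add_apply, ha, hb, rr_add, ← add_mul]
    congr 1
    unfold aug
    rw [MonoidAlgebra.coeff_add]
    exact (Finsupp.sum_add_index' (fun _ => rfl) (fun _ _ _ => rfl)).symm
  | single g p =>
    rw [toF_single_apply, toF_ofF]
    by_cases h : t⁻¹ * g * 1 ∈ MulAction.stabilizer G y₀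
    · rw [rr_single_mem _ h]
      have h1 : t⁻¹ • g • y₀ = y₀ := by
        have h2 := MulAction.mem_stabilizer_iff.1 h
        rwa [mul_one, mul_smul] at h2
      have h3 : g⁻¹ • t • y₀ = y₀ := by
        rw [inv_smul_eq_iff]
        rw [inv_smul_eq_iff] at h1
        exact h1.symm
      rw [h3, Finsupp.single_eq_same]
      unfold aug
      rw [MonoidAlgebra.coeff_single, Finsupp.sum_single_index rfl]
    · rw [rr_single_not _ h]
      have h3 : g⁻¹ • t • y₀ ≠ y₀ := by
        intro h3
        apply h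
        rw [MulAction.mem_stabilizer_iff, mul_one, mul_smul, inv_smul_eq_iff]
        rw [inv_smul_eq_iff] at h3
        exact h3.symm
      rw [Finsupp.single_eq_of_ne h3]
      unfold aug
      rw [MonoidAlgebra.coeff_zero, Finsupp.sum_zero_index, mul_zero, zero_mul]

theorem io_delta (y₀ : Y) (β : MonoidAlgebra ℂ (MulAction.stabilizer G y₀)) (c : ℂ) :
    io (MulAction.stabilizer G y₀) β • (ofF (Finsupp.single y₀ c) : PM G Y)
      = ofF (Finsupp.single y₀ (aug β * c)) := by
  induction β using MonoidAlgebra.induction_linear with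
  | zero =>
    rw [map_zero, zero_smul]
    unfold aug
    rw [MonoidAlgebra.coeff_zero, Finsupp.sum_zero_index, zero_mul, Finsupp.single_zero, map_zero]
  | add a b ha hb =>
    rw [map_add, add_smul, ha, hb, ← map_add, ← Finsupp.single_add, ← add_mul]
    congr 3
    unfold aug
    rw [MonoidAlgebra.coeff_add]
    exact (Finsupp.sum_add_index' (fun _ => rfl) (fun _ _ _ => rfl)).symm
  | single s p =>
    rw [io_single]
    apply toF_inj (G := G)
    rw [toF_single, toF_ofF, toF_ofF, Finsupp.mapDomain_single, Finsupp.smul_single]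
    unfold aug
    rw [MonoidAlgebra.coeff_single, Finsupp.sum_single_index rfl, smul_eq_mul]
    congr 1
    exact s.2

/-- the class of an element -/
def cl (G : Type u) [Group G] {Y : Type u} [MulAction G Y] (z : Y) :
    MulAction.orbitRel.Quotient G Y := Quotient.mk _ z

theorem cl_smul (g : G) (z : Y) : cl G (g • z) = cl G z :=
  Quotient.sound ⟨g, rfl⟩

theorem cl_eq {z y : Y} (h : cl G z = cl G y) : ∃ g : G, g • y = z := by
  have h1 := Quotient.exact h
  exact h1

/-- the functions supported in some orbits -/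
def orbS (G : Type u) [Group G] {Y : Type u} [MulAction G Y]
    (T : Set (MulAction.orbitRel.Quotient G Y)) : Submodule (MonoidAlgebra ℂ G) (PM G Y) where
  carrier := {f | ∀ z, toF f z ≠ 0 → cl G z ∈ T}
  zero_mem' := by
    intro z hz
    rw [map_zero toF] at hz
    exact absurd rfl hz
  add_mem' := by
    intro a b ha hb z hz
    rw [map_add toF, Finsupp.add_apply] at hz
    by_cases h : toF a z = 0
    · apply hb
      intro h'
      rw [h, h', add_zero] at hz
      exact hz rfl
    · exact ha z h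
  smul_mem' := by
    intro α f hf
    induction α using MonoidAlgebra.induction_linear with
    | zero =>
      rw [zero_smul]
      intro z hz
      rw [map_zero toF] at hz
      exact absurd rfl hz
    | add a b ha hb =>
      rw [add_smul]
      intro z hz
      rw [map_add toF, Finsupp.add_apply] at hz
      by_cases h : toF (a • f) z = 0
      · apply hb
        intro h'
        rw [h, h', add_zero] at hz
        exact hz rfl
      · exact ha z h
    | single g c =>
      intro z hz
      rw [toF_single_apply] at hz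
      have h1 := hf _ (right_ne_zero_of_mul hz)
      rwa [cl_smul] at h1

theorem mem_orbS {T : Set (MulAction.orbitRel.Quotient G Y)} {f : PM G Y} :
    f ∈ orbS G T ↔ ∀ z, toF f z ≠ 0 → cl G z ∈ T := Iff.rfl

/-- the functions supported in some orbits -/
def orbF (hX : OrdInv G X) (h : Y → X) (hh : ∀ (g : G) (σ : Y), h (g • σ) = g • h σ)
    (T : Set (MulAction.orbitRel.Quotient G Y)) :
    Submodule (MonoidAlgebra ℂ G) (cellF hX h hh).M := orbS G T

/-- the underlying function -/
noncomputable def toC (hX : OrdInv G X) (h : Y → X)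
    (hh : ∀ (g : G) (σ : Y), h (g • σ) = g • h σ) (m : (cellF hX h hh).M) : Y →₀ ℂ :=
  toF (G := G) m

/-- the element of the module -/
noncomputable def ofC (hX : OrdInv G X) (h : Y → X)
    (hh : ∀ (g : G) (σ : Y), h (g • σ) = g • h σ) (f : Y →₀ ℂ) : (cellF hX h hh).M :=
  ofF (G := G) f

theorem toC_ofC (hX : OrdInv G X) (h : Y → X)
    (hh : ∀ (g : G) (σ : Y), h (g • σ) = g • h σ) (f : Y →₀ ℂ) :
    toC hX h hh (ofC hX h hh f) = f := rfl

theorem toC_inj (hX : OrdInv G X) (h : Y → X)
    (hh : ∀ (g : G) (σ : Y), h (g • σ) = g • h σ) {m m' : (cellF hX h hh).M}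
    (e : toC hX h hh m = toC hX h hh m') : m = m' := e

theorem toC_zero (hX : OrdInv G X) (h : Y → X)
    (hh : ∀ (g : G) (σ : Y), h (g • σ) = g • h σ) : toC hX h hh 0 = 0 := rfl

theorem mem_orbF (hX : OrdInv G X) (h : Y → X)
    (hh : ∀ (g : G) (σ : Y), h (g • σ) = g • h σ) (T : Set (MulAction.orbitRel.Quotient G Y))
    (m : (cellF hX h hh).M) : m ∈ orbF hX h hh T ↔ ∀ z, toC hX h hh m z ≠ 0 → cl G z ∈ T := Iff.rfl

theorem mem_lev (hX : OrdInv G X) (h : Y → X)
    (hh : ∀ (g : G) (σ : Y), h (g • σ) = g • h σ) (x : X)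
    (m : (cellF hX h hh).M) : m ∈ (cellF hX h hh).lev x ↔ ∀ z, toC hX h hh m z ≠ 0 → x ≤ h z :=
  Iff.rfl

theorem toC_lc (hX : OrdInv G X) (h : Y → X)
    (hh : ∀ (g : G) (σ : Y), h (g • σ) = g • h σ) {k : ℕ} (c : Fin k → Y →₀ ℂ)
    (v : Fin k → MonoidAlgebra ℂ G) :
    toC hX h hh (lc (fun j => ofC hX h hh (c j)) v) = ∑ j, toF (v j • (ofF (c j) : PM G Y)) :=
  map_sum toF (fun j => v j • (ofF (c j) : PM G Y)) Finset.univ

theorem ff_orbit (hX : OrdInv G X) (h : Y → X) (hh : ∀ (g : G) (σ : Y), h (g • σ) = g • h σ)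
    (y₀ : Y) (n : ℕ) (hS : IsFP (MulAction.stabilizer G y₀) n) :
    FF n (subF (cellF hX h hh) (orbF hX h hh {cl G y₀})) := by
  classical
  obtain ⟨q, R, a, hR⟩ := hS
  have hw0 : ∀ s : MulAction.stabilizer G y₀, (s : G) • h y₀ = h y₀ := by
    intro s
    rw [← hh]
    congr 1
    exact s.2
  have hb : ∀ j : Fin (q 0), ∃ m : (subF (cellF hX h hh) (orbF hX h hh {cl G y₀})).M,
      subv (cellF hX h hh) (orbF hX h hh {cl G y₀}) m
        = ofC hX h hh (Finsupp.single y₀ (a j)) := by
    intro j
    apply subv_mk (cellF hX h hh) (orbF hX h hh {cl G y₀})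
    rw [mem_orbF, toC_ofC]
    intro z hz
    by_cases hzy : z = y₀
    · rw [hzy]
      exact Set.mem_singleton _
    · rw [Finsupp.single_eq_of_ne hzy] at hz
      exact absurd rfl hz
  choose b hb using hb
  have hlc : ∀ v : Fin (q 0) → MonoidAlgebra ℂ G,
      toC hX h hh (subv (cellF hX h hh) (orbF hX h hh {cl G y₀}) (lc b v))
      = ∑ j, toF (v j • (ofF (Finsupp.single y₀ (a j)) : PM G Y)) := by
    intro v
    have e1 : (fun j => subv (cellF hX h hh) (orbF hX h hh {cl G y₀}) (b j))
        = fun j => ofC hX h hh (Finsupp.single y₀ (a j)) := funext hb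
    rw [lc_map, e1, toC_lc]
  have hzero : ∀ m : (subF (cellF hX h hh) (orbF hX h hh {cl G y₀})).M,
      toC hX h hh (subv (cellF hX h hh) (orbF hX h hh {cl G y₀}) m) = 0 → m = 0 := by
    intro m hm
    apply subv_inj
    rw [map_zero]
    exact toC_inj hX h hh hm
  refine ⟨q, fun i => (R i).map (io (MulAction.stabilizer G y₀)), fun _ _ => h y₀, b,
    ⟨⟨?_, ?_⟩, ?_, ?_, ?_, ?_, ?_⟩⟩
  · intro j
    rw [subv_lev, hb, mem_lev, toC_ofC]
    intro z hz
    by_cases hzy : z = y₀
    · rw [hzy]
    · rw [Finsupp.single_eq_of_ne hzy] at hz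
      exact absurd rfl hz
  · intro x m hm
    obtain ⟨j₀, hj₀⟩ : ∃ j, a j ≠ 0 := by
      by_contra hcon
      push Not at hcon
      exact hR.ne (funext hcon)
    have hm2 := subv_mem (cellF hX h hh) (orbF hX h hh {cl G y₀}) m
    rw [subv_lev, mem_lev] at hm
    rw [mem_orbF] at hm2
    set f : Y →₀ ℂ := toC hX h hh (subv (cellF hX h hh) (orbF hX h hh {cl G y₀}) m) with hf
    have hg : ∀ z : Y, ∃ g : G, f z ≠ 0 → g • y₀ = z := by
      intro z
      by_cases hz : f z ≠ 0
      · obtain ⟨g, hg⟩ := cl_eq (Set.mem_singleton_iff.1 (hm2 z hz))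
        exact ⟨g, fun _ => hg⟩
      · exact ⟨1, fun h => absurd h hz⟩
    choose g hg using hg
    refine ⟨Pi.single j₀ (∑ z ∈ f.support,
      MonoidAlgebra.single (g z) (f z * (a j₀)⁻¹)), ?_, ?_⟩
    · intro j t ht
      by_cases hj : j = j₀
      · subst hj
        rw [Pi.single_eq_same] at ht
        have h1 : ∃ z ∈ f.support,
            (MonoidAlgebra.single (g z) (f z * (a j)⁻¹)).coeff t ≠ 0 := by
          by_contra hcon
          push Not at hcon
          rw [Finsupp.mem_support_iff, MonoidAlgebra.coeff_sum, Finsupp.finsetSum_apply] at ht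
          exact ht (Finset.sum_eq_zero fun z hz => hcon z hz)
        obtain ⟨z, hz, hzt⟩ := h1
        have hz' := Finsupp.mem_support_iff.1 hz
        rw [MonoidAlgebra.coeff_single] at hzt
        have ht' : t = g z := by
          by_contra hne
          rw [Finsupp.single_eq_of_ne hne] at hzt
          exact hzt rfl
        change x ≤ t • h y₀
        rw [ht', ← hh, hg z hz']
        exact hm z hz'
      · rw [Pi.single_eq_of_ne hj] at ht
        exact absurd ht (by simp)
    · apply subv_inj
      apply toC_inj hX h hh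
      rw [hlc, Finset.sum_eq_single j₀]
      · rw [Pi.single_eq_same, Finset.sum_smul, map_sum toF]
        have e1 : ∀ z ∈ f.support, toF ((MonoidAlgebra.single (g z)
            (f z * (a j₀)⁻¹) : MonoidAlgebra ℂ G) • (ofF (Finsupp.single y₀ (a j₀)) : PM G Y))
            = Finsupp.single z (f z) := by
          intro z hz
          rw [toF_single, toF_ofF, Finsupp.mapDomain_single, hg z (Finsupp.mem_support_iff.1 hz),
            Finsupp.smul_single, smul_eq_mul, mul_assoc, inv_mul_cancel₀ hj₀, mul_one]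
        rw [Finset.sum_congr rfl e1]
        exact Finsupp.sum_single f
      · intro j _ hj
        rw [Pi.single_eq_of_ne hj, zero_smul, map_zero toF]
      · intro h'
        exact absurd (Finset.mem_univ _) h'
  · intro i hi k j g hg
    have h1 : g ∈ MulAction.stabilizer G y₀ := io_support (MulAction.stabilizer G y₀) _ g hg
    change h y₀ ≤ g • h y₀
    rw [hw0 ⟨g, h1⟩]
  · intro hn k
    apply hzero
    rw [hlc]
    have e1 : ∀ j, toF (((R 0).map (io (MulAction.stabilizer G y₀))) k j
        • (ofF (Finsupp.single y₀ (a j)) : PM G Y))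
        = Finsupp.single y₀ (aug (R 0 k j) * a j) := fun j =>
      congrArg toF (io_delta y₀ (R 0 k j) (a j))
    rw [Finset.sum_congr rfl fun j _ => e1 j, ← Finsupp.single_finsetSum]
    have e2 : ∑ j, aug (R 0 k j) * a j = 0 := by
      apply ((hR.augmentation hn).2 (R 0 k)).1
      refine ⟨Pi.single k 1, ?_⟩
      rw [Matrix.single_one_vecMul]
      rfl
    rw [e2, Finsupp.single_zero]
  · intro i hi
    rw [← Matrix.map_mul, hR.comp i hi]
    exact Matrix.map_zero _ (map_zero _)
  · intro hn x v hv hv0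
    apply induce_solve (MulAction.stabilizer G y₀) (R 0) (h y₀) hw0 x v hv
    intro t
    apply ((hR.augmentation hn).2 (rv (MulAction.stabilizer G y₀) t v)).2
    have h1 := hlc v
    rw [hv0, map_zero, toC_zero] at h1
    have h2 := congrArg (fun f : Y →₀ ℂ => f (t • y₀)) h1
    beta_reduce at h2
    rw [Finsupp.finsetSum_apply] at h2
    refine Eq.trans ?_ h2.symm
    refine Finset.sum_congr rfl fun j _ => ?_
    exact (toF_delta y₀ t (v j) (a j)).symm
  · intro i hi x v hv hv0
    apply induce_solve (MulAction.stabilizer G y₀) (R (i + 1)) (h y₀) hw0 x v hv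
    intro t
    apply hR.exact i hi
    rw [← rv_vecMul, hv0]
    funext j
    exact rr_zero (MulAction.stabilizer G y₀) t 1

end orbit

end Run7.h31.Brown
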