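import Pool.Agent.Run7.h31.Brown.Orbit

set_option autoImplicit false
set_option linter.unusedSectionVars false

open scoped Matrix Pointwise

/-! Permutation modules with finitely many orbits, and groups which act on complexes with heights. -/

namespace Run7.h31.Brown

open Run7.h31.Raise Pool.Agent.N309.LO
open Pool.Agent.Results.MP_984acc_gt.OrderRaising

universe u v w

section
variable {G : Type u} [Group G] {X : Type v} [LinearOrder X] [MulAction G X]

theorem ff_of_zero (P : FMod.{u, v, w} G X) (hP : ∀ m : P.M, m = 0) (n : ℕ) : FF n P := by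
  refine ⟨fun _ => 0, fun _ => 0, fun _ j => j.elim0, fun j => j.elim0, ⟨⟨?_, ?_⟩, ?_, ?_, ?_, ?_, ?_⟩⟩
  · intro j
    exact j.elim0
  · intro x m _
    exact ⟨0, abv_zero _ _, by rw [map_zero, hP m]⟩
  · intro i _ k
    exact k.elim0
  · intro _ k
    exact k.elim0
  · intro i _
    rw [Matrix.mul_zero]
  · intro _ x v _ _
    exact ⟨0, abv_zero _ _, funext fun j => j.elim0⟩
  · intro i _ x v _ _
    exact ⟨0, abv_zero _ _, funext fun j => j.elim0⟩

theorem ff_equiv {A B : FMod.{u, v, w} G X} (f : A.M →ₗ[MonoidAlgebra ℂ G] B.M)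
    (hf : Function.Injective f) (hs : Function.Surjective f)
    (hl : ∀ x a, a ∈ A.lev x ↔ f a ∈ B.lev x) {n : ℕ} (h : FF n A) : FF n B := by
  obtain ⟨q, E, w, b, h⟩ := h
  refine ⟨q, E, w, fun j => f (b j), ⟨⟨?_, ?_⟩, h.hts, ?_, h.comp, ?_, h.ex⟩⟩
  · intro j
    exact (hl _ _).1 (h.cov.mem j)
  · intro x m hm
    obtain ⟨a, rfl⟩ := hs m
    obtain ⟨v, hv, hv0⟩ := h.cov.surj x a ((hl x a).2 hm)
    exact ⟨v, hv, by rw [← lc_map, hv0]⟩
  · intro hn k
    rw [← lc_map, h.comp0 hn, map_zero]
  · intro hn x v hv hv0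
    apply h.ex0 hn x v hv
    apply hf
    rw [lc_map, hv0, map_zero]

variable {Y : Type u} [MulAction G Y]

open Classical in
/-- the restriction to an orbit -/
noncomputable def rs (o : MulAction.orbitRel.Quotient G Y) : (Y →₀ ℂ) →ₗ[ℂ] (Y →₀ ℂ) where
  toFun f := f.filter (fun z => cl G z = o)
  map_add' := fun _ _ => Finsupp.filter_add
  map_smul' := fun _ _ => Finsupp.filter_smul

open Classical in
theorem rs_apply (o : MulAction.orbitRel.Quotient G Y) (f : Y →₀ ℂ) (z : Y) :
    rs o f z = if cl G z = o then f z else 0 := Finsupp.filter_apply _ _ _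

theorem rs_equivariant (o : MulAction.orbitRel.Quotient G Y) (g : G) (y : Y) :
    rs o (Finsupp.single (g • y) 1) = (rs o (Finsupp.single y 1)).mapDomain (fun z => g • z) := by
  classical
  change Finsupp.filter _ _ = Finsupp.mapDomain _ (Finsupp.filter _ _)
  by_cases h : cl G y = o
  · have h' : cl G (g • y) = o := by
      rw [cl_smul]
      exact h
    rw [Finsupp.filter_single_of_pos (fun z => cl G z = o) h,
      Finsupp.filter_single_of_pos (fun z => cl G z = o) h', Finsupp.mapDomain_single]
  · have h' : ¬ cl G (g • y) = o := by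
      rw [cl_smul]
      exact h
    rw [Finsupp.filter_single_of_neg (fun z => cl G z = o) h,
      Finsupp.filter_single_of_neg (fun z => cl G z = o) h', Finsupp.mapDomain_zero]

/-- the restriction to an orbit -/
noncomputable def rsL (hX : OrdInv G X) (h : Y → X)
    (hh : ∀ (g : G) (σ : Y), h (g • σ) = g • h σ) (o : MulAction.orbitRel.Quotient G Y) :
    (cellF hX h hh).M →ₗ[MonoidAlgebra ℂ G] (cellF hX h hh).M := toA (rs o) (rs_equivariant o)

theorem toC_rsL (hX : OrdInv G X) (h : Y → X)
    (hh : ∀ (g : G) (σ : Y), h (g • σ) = g • h σ) (o : MulAction.orbitRel.Quotient G Y)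
    (m : (cellF hX h hh).M) : toC hX h hh (rsL hX h hh o m) = rs o (toC hX h hh m) := rfl

theorem toC_ext (hX : OrdInv G X) (h : Y → X)
    (hh : ∀ (g : G) (σ : Y), h (g • σ) = g • h σ) {m m' : (cellF hX h hh).M}
    (e : ∀ z, toC hX h hh m z = toC hX h hh m' z) : m = m' :=
  toC_inj hX h hh (Finsupp.ext e)

theorem ff_orbits (hX : OrdInv G X) (h : Y → X) (hh : ∀ (g : G) (σ : Y), h (g • σ) = g • h σ)
    (n : ℕ) (hS : ∀ y : Y, IsFP (MulAction.stabilizer G y) n)
    (T : Finset (MulAction.orbitRel.Quotient G Y)) :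
    FF n (subF (cellF hX h hh) (orbF hX h hh (T : Set (MulAction.orbitRel.Quotient G Y)))) := by
  classical
  induction T using Finset.induction_on with
  | empty =>
    apply ff_of_zero
    intro m
    apply subv_inj
    have hm := subv_mem _ _ m
    rw [mem_orbF] at hm
    rw [map_zero]
    apply toC_ext hX h hh
    intro z
    by_contra hne
    rw [toC_zero] at hne
    have h1 := hm z hne
    rw [Finset.coe_empty] at h1
    exact h1
  | insert o T ho ih =>
    obtain ⟨y₀, hy₀⟩ : ∃ y₀ : Y, cl G y₀ = o := Quotient.exists_rep o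
    have h1 := ff_orbit hX h hh y₀ n (hS y₀)
    rw [hy₀] at h1
    refine horse hX n _ _ _ ?_ ih h1
    have hi : ∀ m : (subF (cellF hX h hh) (orbF hX h hh (T : Set _))).M,
        subv _ _ m ∈ orbF hX h hh ((insert o T : Finset _) : Set _) := by
      intro m z hz
      have h2 := subv_mem _ _ m z hz
      rw [Finset.coe_insert]
      exact Set.mem_insert_of_mem _ h2
    have hp : ∀ m : (subF (cellF hX h hh) (orbF hX h hh ((insert o T : Finset _) : Set _))).M,
        (rsL hX h hh o ∘ₗ subv _ _) m ∈ orbF hX h hh {o} := by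
      intro m
      rw [mem_orbF, LinearMap.comp_apply, toC_rsL]
      intro z hz
      rw [rs_apply] at hz
      by_cases hzo : cl G z = o
      · exact hzo
      · rw [if_neg hzo] at hz
        exact absurd rfl hz
    refine
      { i := LinearMap.codRestrict _ (subv _ _) hi
        p := LinearMap.codRestrict _ (rsL hX h hh o ∘ₗ subv _ _) hp
        inj := ?_
        ex := ?_
        comp := ?_
        lev_i := ?_
        surj := ?_
        lev_p := ?_ }
    · intro m m' hmm
      apply subv_inj
      exact congrArg (fun z : orbF hX h hh ((insert o T : Finset _) : Set _) => z.1) hmm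
    · intro m hm
      have h2 : rsL hX h hh o (subv _ _ m) = 0 :=
        congrArg (fun z : orbF hX h hh {o} => z.1) hm
      have h3 : subv _ _ m ∈ orbF hX h hh (T : Set _) := by
        rw [mem_orbF]
        intro z hz
        have h4 := subv_mem _ _ m z hz
        rw [Finset.coe_insert] at h4
        rcases h4 with h4 | h4
        · exfalso
          have h5 : toC hX h hh (rsL hX h hh o (subv _ _ m)) z = 0 := by
            rw [h2]
            rfl
          rw [toC_rsL, rs_apply, if_pos h4] at h5
          exact hz h5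
        · exact h4
      obtain ⟨a, ha⟩ := subv_mk _ _ _ h3
      exact ⟨a, Subtype.ext ha⟩
    · intro a
      apply Subtype.ext
      change rsL hX h hh o (subv _ _ a) = 0
      apply toC_ext hX h hh
      intro z
      rw [toC_rsL, rs_apply, toC_zero]
      by_cases hzo : cl G z = o
      · rw [if_pos hzo]
        by_contra hne
        have h2 := subv_mem _ _ a z hne
        rw [hzo] at h2
        exact ho h2
      · rw [if_neg hzo]
        rfl
    · intro x a
      exact Iff.rfl
    · intro x c hc
      have h2 : subv _ _ c ∈ orbF hX h hh ((insert o T : Finset _) : Set _) := by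
        intro z hz
        have h3 := subv_mem _ _ c z hz
        rw [Finset.coe_insert]
        exact Or.inl h3
      obtain ⟨b, hb⟩ := subv_mk _ _ _ h2
      refine ⟨b, ?_, ?_⟩
      · rw [subv_lev, hb]
        exact hc
      · apply Subtype.ext
        change rsL hX h hh o (subv _ _ b) = subv _ _ c
        rw [hb]
        apply toC_ext hX h hh
        intro z
        rw [toC_rsL, rs_apply]
        by_cases hzo : cl G z = o
        · rw [if_pos hzo]
        · rw [if_neg hzo]
          by_contra hne
          exact hzo (subv_mem _ _ c z (Ne.symm hne))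
    · intro x b hb
      rw [subv_lev, mem_lev] at hb
      change rsL hX h hh o (subv _ _ b) ∈ (cellF hX h hh).lev x
      rw [mem_lev, toC_rsL]
      intro z hz
      rw [rs_apply] at hz
      by_cases hzo : cl G z = o
      · rw [if_pos hzo] at hz
        exact hb z hz
      · rw [if_neg hzo] at hz
        exact absurd rfl hz

theorem ff_cells (hX : OrdInv G X) (h : Y → X) (hh : ∀ (g : G) (σ : Y), h (g • σ) = g • h σ)
    [Finite (MulAction.orbitRel.Quotient G Y)] (n : ℕ)
    (hS : ∀ y : Y, IsFP (MulAction.stabilizer G y) n) : FF n (cellF hX h hh) := by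
  classical
  have : Fintype (MulAction.orbitRel.Quotient G Y) := Fintype.ofFinite _
  have h1 := ff_orbits hX h hh n hS Finset.univ
  refine ff_equiv (subv _ _) (subv_inj _ _) ?_ (fun x a => Iff.rfl) h1
  intro m
  apply subv_mk
  intro z _
  exact Finset.mem_coe.2 (Finset.mem_univ _)

/-- **The criterion.** -/
theorem upper_of_cells (hX : OrdInv G X) (m : ℕ) {Y : ℕ → Type u} [∀ b, MulAction G (Y b)]
    (d : ∀ b, (Y (b + 1) →₀ ℂ) →ₗ[ℂ] (Y b →₀ ℂ)) (α : Y 0 → ℂ) (h : ∀ b, Y b → X)
    (H : IsHeightComplex (G := G) m d α h)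
    (hfin : ∀ b, b ≤ m → Finite (MulAction.orbitRel.Quotient G (Y b)))
    (hS : ∀ b, b ≤ m → ∀ y : Y b, IsFP (MulAction.stabilizer G y) (m - b)) :
    ∃ (q : ℕ → ℕ) (E : Matrices G q) (a : Fin (q 0) → ℂ) (w : ∀ i, Fin (q i) → X),
      IsUpperExact m E a w := by
  apply upper_of_ff
  apply cells_ff hX m d α h H
  intro b hb
  have := hfin b hb
  exact ff_cells hX (h b) (H.height b) (m - b) (hS b hb)

end

end Run7.h31.Brown
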