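import Pool.Agent.Run7.h31.Brown.Horse

set_option autoImplicit false
set_option linter.unusedSectionVars false

open scoped Matrix Pointwise

/-! Filtered permutation modules. -/

namespace Run7.h31.Brown

open Run7.h31.Raise Pool.Agent.N309.LO
open Pool.Agent.Results.MP_984acc_gt.OrderRaising

universe u v w

/-- the permutation representation -/
noncomputable def permRep (G : Type u) [Group G] (Y : Type w) [MulAction G Y] :
    Representation ℂ G (Y →₀ ℂ) where
  toFun g := Finsupp.lmapDomain ℂ ℂ (fun y => g • y)
  map_one' := by
    ext y z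
    simp
  map_mul' := by
    intro g h
    ext y z
    simp [mul_smul]

section
variable {G : Type u} [Group G] {X : Type v} [LinearOrder X] [MulAction G X]

theorem permRep_apply {Y : Type w} [MulAction G Y] (g : G) (f : Y →₀ ℂ) :
    permRep G Y g f = f.mapDomain (fun y => g • y) := rfl

theorem permRep_single {Y : Type w} [MulAction G Y] (g : G) (y : Y) (c : ℂ) :
    permRep G Y g (Finsupp.single y c) = Finsupp.single (g • y) c := by
  rw [permRep_apply, Finsupp.mapDomain_single]

/-- the module of the permutation representation -/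
abbrev PM (G : Type u) [Group G] (Y : Type w) [MulAction G Y] : Type w := (permRep G Y).asModule

/-- the underlying function -/
noncomputable def toF {Y : Type w} [MulAction G Y] : PM G Y →ₗ[ℂ] (Y →₀ ℂ) :=
  (permRep G Y).asModuleEquiv.toLinearMap

/-- the element of the module -/
noncomputable def ofF {Y : Type w} [MulAction G Y] : (Y →₀ ℂ) →ₗ[ℂ] PM G Y :=
  (permRep G Y).asModuleEquiv.symm.toLinearMap

theorem toF_ofF {Y : Type w} [MulAction G Y] (f : Y →₀ ℂ) : toF (ofF f : PM G Y) = f := rfl

theorem ofF_toF {Y : Type w} [MulAction G Y] (f : PM G Y) : ofF (toF f) = f := rfl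

theorem toF_inj {Y : Type w} [MulAction G Y] {f f' : PM G Y} (h : toF f = toF f') : f = f' := h

theorem toF_single {Y : Type w} [MulAction G Y] (g : G) (c : ℂ) (f : PM G Y) :
    toF ((MonoidAlgebra.single g c : MonoidAlgebra ℂ G) • f)
      = c • (toF f).mapDomain (fun y => g • y) := by
  rw [Representation.single_smul]
  rfl

theorem toF_single_apply {Y : Type w} [MulAction G Y] (g : G) (c : ℂ) (f : PM G Y) (y : Y) :
    toF ((MonoidAlgebra.single g c : MonoidAlgebra ℂ G) • f) y = c * toF f (g⁻¹ • y) := by
  rw [toF_single, Finsupp.smul_apply, smul_eq_mul]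
  congr 1
  have e : y = g • (g⁻¹ • y) := by rw [smul_inv_smul]
  conv_lhs => rw [e]
  exact Finsupp.mapDomain_apply (MulAction.injective g) _ _

/-- filtered permutation modules -/
noncomputable def permF (Y : Type u) [MulAction G Y] (U : X → Set Y)
    (hU : ∀ (g : G) (x y : X), y ≤ g • x → ∀ z ∈ U x, g • z ∈ U y) : FMod.{u, v, u} G X where
  M := PM G Y
  lev x :=
    { carrier := {f | ∀ z, toF f z ≠ 0 → z ∈ U x}
      zero_mem' := by
        intro z hz
        rw [map_zero] at hz
        exact absurd rfl hz
      add_mem' := by
        intro a b ha hb z hz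
        rw [map_add, Finsupp.add_apply] at hz
        by_cases h : toF a z = 0
        · apply hb
          intro h'
          rw [h, h', add_zero] at hz
          exact hz rfl
        · exact ha z h
      neg_mem' := by
        intro a ha z hz
        apply ha
        intro h
        rw [map_neg, Finsupp.neg_apply, h, neg_zero] at hz
        exact hz rfl }
  smul := by
    intro g c x y m hm hxy z hz
    have h1 : toF ((MonoidAlgebra.single g c : MonoidAlgebra ℂ G) • m) z ≠ 0 := hz
    rw [toF_single_apply] at h1
    have h2 := hm (g⁻¹ • z) (right_ne_zero_of_mul h1)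
    have h3 := hU g x y hxy _ h2
    rwa [smul_inv_smul] at h3

theorem mem_permF {Y : Type u} [MulAction G Y] {U : X → Set Y}
    {hU : ∀ (g : G) (x y : X), y ≤ g • x → ∀ z ∈ U x, g • z ∈ U y} (x : X) (f : PM G Y) :
    f ∈ (permF Y U hU).lev x ↔ ∀ z, toF f z ≠ 0 → z ∈ U x := Iff.rfl

/-- an equivariant linear map of permutation modules -/
noncomputable def toA {Y : Type u} {Z : Type w} [MulAction G Y] [MulAction G Z]
    (f : (Y →₀ ℂ) →ₗ[ℂ] (Z →₀ ℂ))
    (hf : ∀ (g : G) (y : Y), f (Finsupp.single (g • y) 1)
      = (f (Finsupp.single y 1)).mapDomain (fun z => g • z)) :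
    PM G Y →ₗ[MonoidAlgebra ℂ G] PM G Z where
  toFun m := ofF (f (toF m))
  map_add' := by
    intro m m'
    rw [map_add, map_add, map_add]
  map_smul' := by
    have key : ∀ (g : G) (m : Y →₀ ℂ), f (m.mapDomain (fun y => g • y))
        = (f m).mapDomain (fun z => g • z) := by
      intro g m
      induction m using Finsupp.induction_linear with
      | zero => rw [Finsupp.mapDomain_zero, map_zero, Finsupp.mapDomain_zero]
      | add a b ha hb => rw [Finsupp.mapDomain_add, map_add, map_add, ha, hb, Finsupp.mapDomain_add]
      | single y c =>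
        have e : ∀ y : Y, (Finsupp.single y c : Y →₀ ℂ) = c • Finsupp.single y 1 := by
          intro y
          rw [Finsupp.smul_single, smul_eq_mul, mul_one]
        rw [Finsupp.mapDomain_single, e, e, map_smul, map_smul, hf, Finsupp.mapDomain_smul]
    intro α m
    induction α using MonoidAlgebra.induction_linear with
    | zero => rw [zero_smul, RingHom.id_apply, zero_smul, map_zero, map_zero, map_zero]
    | add a b ha hb =>
      rw [add_smul, map_add, map_add, map_add, ha, hb, RingHom.id_apply, RingHom.id_apply,
        RingHom.id_apply, add_smul]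
    | single g c =>
      apply toF_inj
      rw [toF_ofF, toF_single, RingHom.id_apply, toF_single, map_smul, key, toF_ofF]

theorem toF_toA {Y : Type u} {Z : Type w} [MulAction G Y] [MulAction G Z]
    (f : (Y →₀ ℂ) →ₗ[ℂ] (Z →₀ ℂ))
    (hf : ∀ (g : G) (y : Y), f (Finsupp.single (g • y) 1)
      = (f (Finsupp.single y 1)).mapDomain (fun z => g • z)) (m : PM G Y) :
    toF (toA f hf m) = f (toF m) := rfl

end

end Run7.h31.Brown
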