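import Pool.Agent.Run7.h31.Brown.Ext

set_option autoImplicit false
set_option linter.unusedSectionVars false

open scoped Matrix Pointwise

/-! Vanishing of the Betti numbers of groups with a subgroup of finite index which acts on an ordered
set. -/

namespace Run7.h31.Brown

open Run7.h31.Raise Pool.Agent.N309.LO Pool.Agent.N309.PD
open Pool.Agent.Results.MP_984acc_gt.OrderRaising

universe u v w

section
variable {G : Type u} [Group G] {H : Subgroup G} {A : Type w} [Fintype A] {s : A → G}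
  (hs : IsTrans H s) {N : ℕ} {r : ℕ → ℕ} (e : ∀ i, Fin (N * r i) ≃ A × Fin (r i))

include hs

theorem res_partial [Nonempty A] (n : ℕ) (D : Matrices G r) (a : Fin (r 0) → ℂ)
    (hD : IsPartialResolution n D a) :
    IsPartialResolution n (resD (H := H) e s D) (fun j => a (e 0 j).2) := by
  have ha0 : (fun j => a (e 0 j).2) ≠ 0 := by
    intro h
    apply hD.ne
    funext j
    have h1 := congrFun h ((e 0).symm (Classical.arbitrary A, j))
    change a ((e 0) ((e 0).symm (Classical.arbitrary A, j))).2 = 0 at h1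
    rwa [(e 0).apply_symm_apply] at h1
  refine ⟨ha0, ?_, ?_, ?_⟩
  · intro hn
    obtain ⟨_, ha⟩ := hD.augmentation hn
    refine ⟨ha0, ?_⟩
    intro x
    obtain ⟨z, rfl⟩ := rowM_surjective (H := H) hs (e 0) x
    have h1 : ∑ i, aug (rowM (H := H) s (e 0) z i) * a (e 0 i).2 = ∑ i, aug (z i) * a i := by
      change ∑ i, aug (rr H 1 (s (e 0 i).1) (z (e 0 i).2)) * a (e 0 i).2 = _
      rw [Equiv.sum_comp (e 0) (fun p : A × Fin (r 0) => aug (rr H 1 (s p.1) (z p.2)) * a p.2),
        Fintype.sum_prod_type, Finset.sum_comm]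
      refine Finset.sum_congr rfl fun i _ => ?_
      change ∑ x, aug (rr H 1 (s x) (z i)) * a i = _
      rw [← Finset.sum_mul, aug_row hs]
    rw [h1, ← ha]
    constructor
    · rintro ⟨y, hy⟩
      obtain ⟨y, rfl⟩ := rowM_surjective (H := H) hs (e (0 + 1)) y
      refine ⟨y, ?_⟩
      apply rowM_injective (H := H) hs (e 0)
      rw [← hy]
      exact rowM_vecMul hs _ _ y (D 0)
    · rintro ⟨y, rfl⟩
      exact ⟨rowM s (e (0 + 1)) y, (rowM_vecMul hs _ _ y (D 0)).symm⟩
  · intro i hi
    refine (resM_mul hs (e (i + 1 + 1)) (e (i + 1)) (e i) (D (i + 1)) (D i)).trans ?_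
    rw [hD.comp i hi]
    funext j k
    exact rr_zero H _ _
  · intro i hi x hx
    obtain ⟨z, rfl⟩ := rowM_surjective (H := H) hs (e (i + 1)) x
    change rowM s (e (i + 1)) z ᵥ* resM s (e (i + 1)) (e i) (D i) = 0 at hx
    rw [← rowM_vecMul hs] at hx
    have h1 : z ᵥ* D i = 0 := by
      apply rowM_injective (H := H) hs (e i)
      rw [hx]
      funext j
      exact (rr_zero H _ _).symm
    obtain ⟨y, rfl⟩ := hD.exact i hi z h1
    exact ⟨rowM s (e (i + 1 + 1)) y, (rowM_vecMul hs _ _ y (D (i + 1))).symm⟩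

end

section
variable {G : Type u} [Group G]

theorem vanish_self {X : Type v} [LinearOrder X] [MulAction G X] [Nonempty X] [NoMaxOrder X]
    (hX : OrderInvariant G X) (m : ℕ) {r : ℕ → ℕ} (D : Matrices G r) (a : Fin (r 0) → ℂ)
    (hD : IsPartialResolution (m + 1) D a)
    (hU : ∃ (q : ℕ → ℕ) (E : Matrices G q) (a' : Fin (q 0) → ℂ) (w : ∀ i, Fin (q i) → X),
      IsUpperExact m E a' w) (i : ℕ) (hi : i ≤ m) : betti D i = 0 := by
  obtain ⟨q, E, a', w, hE⟩ := hU
  apply le_antisymm _ (betti_nonneg D i)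
  rw [betti_bet]
  have h1 := raised_of_upper hX m E a' w hE i hi
  have h2 := bound_of h1 D (augF a) (augF_ne a hD.ne) (by
    intro x
    rw [augF_sum]
    exact (hD.augmentation (by omega)).2 x) (fun j hj => hD.comp j (by omega))
    (fun j hj => hD.exact j (by omega))
  rwa [Nat.cast_zero] at h2

theorem vanish_index (H : Subgroup G) [hH : H.FiniteIndex] {X : Type v} [LinearOrder X]
    [MulAction H X] [Nonempty X] [NoMaxOrder X] (hX : OrderInvariant H X) (m : ℕ) {r : ℕ → ℕ}
    (D : Matrices G r) (a : Fin (r 0) → ℂ) (hD : IsPartialResolution (m + 1) D a)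
    (hU : ∃ (q : ℕ → ℕ) (E : Matrices H q) (a' : Fin (q 0) → ℂ) (w : ∀ i, Fin (q i) → X),
      IsUpperExact m E a' w) (i : ℕ) (hi : i ≤ m) : betti D i = 0 := by
  classical
  have : Fintype (G ⧸ H) := Fintype.ofFinite _
  have : Nonempty (G ⧸ H) := ⟨((1 : G) : G ⧸ H)⟩
  have hcard : Fintype.card (G ⧸ H) = H.index := by
    rw [Subgroup.index_eq_card, Nat.card_eq_fintype_card]
  have hs := trans_out H
  let e : ∀ i, Fin (H.index * r i) ≃ (G ⧸ H) × Fin (r i) := fun i =>
    Fintype.equivOfCardEq (by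
      rw [Fintype.card_fin, Fintype.card_prod, Fintype.card_fin, hcard])
  have h1 := res_partial (H := H) hs e (m + 1) D a hD
  have h2 := vanish_self hX m (resD (H := H) e (fun q : G ⧸ H => q.out) D) _ h1 hU i hi
  rw [betti_res hs e, hcard] at h2
  have h3 : (H.index : ℝ) ≠ 0 := by
    exact_mod_cast hH.index_ne_zero
  exact (mul_eq_zero.1 h2).resolve_left h3

end

end Run7.h31.Brown
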